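import Pool.Agent.W424.KI.Stm
import Pool.Agent.H160R2.MU.T_SEPA

/-! SEPA for the annuli of the dislocated plane, step A: class 1, different clusters are far from each
other at the boundary of the tube (port of `Pool.Agent.W808.KZ.T_SEPA` by helper21). -/

set_option autoImplicit false

namespace Pool.Agent.W378.KI
open H974 H906.Cyl
open H12S (Dir hbE segD rimE H4 Crs Nr sqE fl)
open Pool.Agent.H160R2.ML (nm)
open Pool.Agent.H160R2.MU (Cel csq cpos EP inSq)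
open Pool.Agent.W801.OU
open Pool.Agent.W808.KZ (vp fp AdmZ OutF LandZ nrp ZCr mrg)
open Pool.Agent.W424.KI

namespace TSEPA

open Pool.Agent.H160R2.MU.TSEPA (div_iff fl_iff EP_iff pe pe_eq
  EP_union hseg vseg btw adj_dist QQ QQ_div nz nz_QQ tc hc inn pj inn_c ext_c adj_c bal
  hb_iff seg_iff rim_iff bp dist_c cr1 cr2 col near_line)

/-! ### squares away from the zipper -/

/-- the squares away from the zipper -/
def Es : Set Edg := {e | 0 ≤ dco e ∨ (e.1 + e.2.1 ≠ 0 ∧ e.1 + e.2.1 + 1 ≠ 0)}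

theorem Es_zp {e : Edg} (h : e ∈ Es) : e ∉ zp {0} := by
  rintro ⟨h1, h2⟩
  rw [Set.mem_singleton_iff] at h2
  rcases h with h | h
  · omega
  · exact h.2 h2

theorem Es_nrm {e : Edg} (h : e ∈ Es) (t : ℤ) :
    nrm {0} (dco e) (e.1 + e.2.1) t = (e.1 + e.2.1, t) ∧
      nrm {0} (dco e) (e.1 + e.2.1 + 1) t = (e.1 + e.2.1 + 1, t) := by
  unfold nrm
  rcases h with h | h
  · rw [if_neg (fun h1 => by omega), if_neg (fun h1 => by omega)]
    exact ⟨rfl, rfl⟩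
  · rw [if_neg (fun h1 => h.1 h1.2), if_neg (fun h1 => h.2 h1.2)]
    exact ⟨rfl, rfl⟩

theorem fp_inj {v w : Vtx} (h : fp v = fp w) : v = w := by
  unfold fp at h
  simp only [Prod.mk.injEq] at h
  obtain ⟨h1, h2⟩ := h
  ext <;> omega

theorem fp_par (v : Vtx) : ¬ ((fp v).1 + (fp v).2) % 2 = 0 := by
  unfold fp
  simp only
  omega

theorem pe_mk (x y : ℤ) : pe (x, y, false) = (x, y + 1, true) ∧ pe (x, y, true) = (x + 1, y, false) := by
  constructor
  · unfold pe edz dco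
    simp only [Bool.false_eq_true, if_false]
    rw [if_pos (by omega)]
    simp only [Prod.mk.injEq, and_true]
    omega
  · unfold pe edz dco
    simp only [if_true]
    rw [if_neg (by omega)]
    simp only [Prod.mk.injEq, and_true]
    omega

theorem pe_col (e : Edg) : (pe e).1 + (pe e).2.1 = e.1 + e.2.1 + 1 := by
  obtain ⟨x, y, b⟩ := e
  cases b
  · rw [(pe_mk x y).1]
    simp only
    omega
  · rw [(pe_mk x y).2]
    simp only
    omega

theorem Dg_pe (e : Edg) (h : pe e ∈ Es) :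
    Dg {0} 1 (pe e) (fp (src e)) (fp (tgt e)) := by
  obtain ⟨p1, p2, p3⟩ := pe_eq e
  have hc := pe_col e
  by_cases hb : e.2.2 = true
  · have e1 : fp (src e) = nrm {0} (dco (pe e)) ((pe e).1 + (pe e).2.1) (dco (pe e)) := by
      rw [(Es_nrm h _).1, hc, p3]
      obtain ⟨x, y, b⟩ := e
      simp only at hb
      subst hb
      simp only [src_mk, fp, dco, if_true]
    have e2 : fp (tgt e) = nrm {0} (dco (pe e)) ((pe e).1 + (pe e).2.1 + 1) (dco (pe e) + 1) := by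
      rw [(Es_nrm h _).2, hc, p3]
      obtain ⟨x, y, b⟩ := e
      simp only at hb
      subst hb
      simp only [tgt_true, fp, dco, if_true]
      ext <;> simp only <;> ring
    rw [e1, e2]
    apply Dg.rise
    rw [hc, p3]
    obtain ⟨x, y, b⟩ := e
    simp only at hb
    subst hb
    simp only [dco, if_true]
    omega
  · have hb' : e.2.2 = false := by simpa using hb
    have e1 : fp (src e) = nrm {0} (dco (pe e)) ((pe e).1 + (pe e).2.1) (dco (pe e) + 1) := by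
      rw [(Es_nrm h _).1, hc, p3]
      obtain ⟨x, y, b⟩ := e
      simp only at hb'
      subst hb'
      simp only [src_mk, fp, dco, Bool.false_eq_true, if_false]
      ext <;> simp only <;> ring
    have e2 : fp (tgt e) = nrm {0} (dco (pe e)) ((pe e).1 + (pe e).2.1 + 1) (dco (pe e)) := by
      rw [(Es_nrm h _).2, hc, p3]
      obtain ⟨x, y, b⟩ := e
      simp only at hb'
      subst hb'
      simp only [tgt_false, fp, dco, Bool.false_eq_true, if_false]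
      ext <;> simp only <;> ring
    rw [e1, e2]
    apply Dg.fall
    rw [hc, p3]
    obtain ⟨x, y, b⟩ := e
    simp only at hb'
    subst hb'
    simp only [dco, Bool.false_eq_true, if_false]
    omega

theorem pe_surj (E : Edg) : ∃ e, pe e = E := by
  obtain ⟨x, y, b⟩ := E
  cases b
  · exact ⟨(x - 1, y, true), by rw [(pe_mk _ _).2]; simp⟩
  · exact ⟨(x, y - 1, false), by rw [(pe_mk _ _).1]; simp⟩

theorem Dg_uniq {Z : Set ℤ} {c : ℤ} (_hc : c = 0 ∨ c = 1) {E : Edg} {a b a' b' : ℤ × ℤ}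
    (h : Dg Z c E a b) (h' : Dg Z c E a' b') : a = a' ∧ b = b' := by
  cases h with
  | rise h1 =>
    cases h' with
    | rise h2 => exact ⟨rfl, rfl⟩
    | fall h2 => omega
  | fall h1 =>
    cases h' with
    | rise h2 => omega
    | fall h2 => exact ⟨rfl, rfl⟩

theorem Dg_inv {E : Edg} (h : E ∈ Es) {a b : ℤ × ℤ} (hD : Dg {0} 1 E a b) :
    ∃ e, pe e = E ∧ a = fp (src e) ∧ b = fp (tgt e) := by
  obtain ⟨e, he⟩ := pe_surj E
  subst he
  obtain ⟨h1, h2⟩ := Dg_uniq (Or.inr rfl) hD (Dg_pe e h)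
  exact ⟨e, rfl, h1, h2⟩

theorem Dg_par0 {E : Edg} (h : E ∈ Es) {a b : ℤ × ℤ} (hD : Dg {0} 0 E a b) :
    (a.1 + a.2) % 2 = 0 ∧ (b.1 + b.2) % 2 = 0 := by
  cases hD with
  | rise h1 =>
    rw [(Es_nrm h _).1, (Es_nrm h _).2]
    simp only
    constructor <;> omega
  | fall h1 =>
    rw [(Es_nrm h _).1, (Es_nrm h _).2]
    simp only
    constructor <;> omega

section K

variable {N L r : ℕ} {Ci Co : Cel} {R : ℕ} {F : Finset Edg}

/-- faces of the inner box and of the outer region -/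
def Bv (N L r : ℕ) (v : Vtx) : Prop := fl r v ∈ BxI N L

/-- faces of inner box, outer region and tube -/
def Pv (N L r : ℕ) (Ci Co : Cel) (v : Vtx) : Prop := fl r v ∈ BxI N L ∪ TubI N L Ci Co

theorem boxE_iff (R : ℕ) (e : Edg) : e ∈ boxE R ↔ e ∈ bxz R := by
  obtain ⟨x, y, b⟩ := e
  unfold bxz boxE nm
  cases b
  · rw [mem_RE_false]
    simp only [src_mk, tgt_false, Set.mem_ofPred_eq, max_le_iff, abs_le]
    omega
  · rw [mem_RE_true]
    simp only [src_mk, tgt_true, Set.mem_ofPred_eq, max_le_iff, abs_le]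
    omega

theorem mem_FA (e : Edg) : e ∈ FA N L r Ci Co R F ↔ e ∈ bxz R ∧ ((e ∈ EP r (BxI N L) ∧ e ∈ F) ∨
    (e ∉ EP r (BxI N L) ∧ e ∈ EP r (BxI N L ∪ TubI N L Ci Co))) := by
  classical
  unfold FA
  rw [Finset.mem_filter, EP_union, boxE_iff]
  tauto

/-- abbreviation for the connection -/
abbrev RA (N L r : ℕ) (Ci Co : Cel) (R : ℕ) (F : Finset Edg) : ℤ × ℤ → ℤ × ℤ → Prop :=
  RZ {0} (bxz R) (↑(FA N L r Ci Co R F) : Set Edg)

/-- abbreviation for the planar configuration -/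
abbrev KK (N L r : ℕ) (Ci Co : Cel) (R : ℕ) (F : Finset Edg) : Set Edg :=
  {g | (pe g ∈ bxz R ∧ pe g ∉ FA N L r Ci Co R F) ∧ pe g ∈ Es}

theorem mem_Cp (g : Edg) : g ∈ Cp 1 (↑F : Set Edg) ↔ pe g ∉ F := by
  simp only [Cp, pe, Set.mem_ofPred_eq, one_ne_zero, if_false, Finset.mem_coe]

theorem K_iff (hr : 1 ≤ r) (g : Edg) : g ∈ KK N L r Ci Co R F ↔ pe g ∈ Es ∧ pe g ∈ bxz R ∧
      ((Bv N L r (src g) ∨ Bv N L r (tgt g)) → pe g ∉ F) ∧
      (¬ Bv N L r (src g) → ¬ Bv N L r (tgt g) →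
        ¬ Pv N L r Ci Co (src g) ∧ ¬ Pv N L r Ci Co (tgt g)) := by
  obtain ⟨p1, p2, p3⟩ := pe_eq g
  have h0 : g ∈ KK N L r Ci Co R F ↔ (pe g ∈ bxz R ∧ pe g ∉ FA N L r Ci Co R F) ∧ pe g ∈ Es :=
    Iff.rfl
  rw [h0, mem_FA, EP_iff r hr, EP_iff r hr, p1, p2]
  unfold Bv Pv
  constructor
  · rintro ⟨⟨h1, h2⟩, h3⟩
    refine ⟨h3, h1, ?_, ?_⟩
    · intro h5 h6
      exact h2 ⟨h1, Or.inl ⟨h5, h6⟩⟩
    · intro h5 h6
      by_contra h7
      apply h2
      refine ⟨h1, Or.inr ⟨by tauto, by tauto⟩⟩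
  · rintro ⟨h1, h2, h3, h4⟩
    refine ⟨⟨h2, ?_⟩, h1⟩
    rintro ⟨-, ⟨h5, h6⟩ | ⟨h5, h6⟩⟩
    · exact h3 h5 h6
    · tauto

/-- far from the zipper -/
def Far (v : Vtx) : Prop := 2 ≤ v.1 - v.2 ∨ v.1 + v.2 ≤ -4 ∨ 4 ≤ v.1 + v.2

theorem Es_far (e : Edg) {v : Vtx} (hv : Far v) (h : src e = v ∨ tgt e = v) :
    pe e ∈ Es := by
  obtain ⟨p1, p2, p3⟩ := pe_eq e
  by_cases h0 : 0 ≤ dco e
  · left
    rw [p3]
    exact h0
  right
  have hcol := pe_col e
  rw [hcol]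
  have h1 := hv
  unfold Far at h1
  obtain ⟨x, y, b⟩ := e
  cases b
  · simp only [dco, Bool.false_eq_true, if_false] at h0
    simp only [src_mk, tgt_false] at h
    rcases h with rfl | rfl <;> simp only at h1 ⊢ <;> omega
  · simp only [dco, if_true] at h0
    simp only [src_mk, tgt_true] at h
    rcases h with rfl | rfl <;> simp only at h1 ⊢ <;> omega

/-- squares at a far face are away from the zippers -/
theorem Es_of_Dg {c : ℤ} {E : Edg} {v : Vtx} (hv : Far v) (hz : E ∉ zp {0})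
    {y : ℤ × ℤ} (h : Dg {0} c E (fp v) y ∨ Dg {0} c E y (fp v)) : E ∈ Es := by
  by_contra hE
  unfold Es at hE
  simp only [Set.mem_ofPred_eq, not_or, not_and_or, not_not] at hE
  obtain ⟨h1, h2⟩ := hE
  have h3 : E.1 + E.2.1 = 0 := by
    rcases h2 with h2 | h2
    · exact h2
    · exact absurd ⟨by omega, h2⟩ hz
  have h4 := hv
  unfold Far at h4
  have key : ∀ t : ℤ, t ≤ 0 → (fp v = nrm {0} (dco E) (E.1 + E.2.1) t ∨
      fp v = nrm {0} (dco E) (E.1 + E.2.1 + 1) t) → False := by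
    intro t ht h5
    rcases h5 with h5 | h5
    · unfold nrm fp at h5
      rw [if_pos ⟨by omega, h3⟩] at h5
      simp only [Prod.mk.injEq] at h5
      omega
    · unfold nrm fp at h5
      rw [if_neg (fun h7 => by
        have := h7.2
        rw [Set.mem_singleton_iff] at this
        omega)] at h5
      simp only [Prod.mk.injEq] at h5
      omega
  generalize hx : fp v = x at h key
  rcases h with h | h
  · cases h with
    | rise h7 => exact key _ (by omega) (Or.inl rfl)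
    | fall h7 => exact key _ (by omega) (Or.inl rfl)
  · cases h with
    | rise h7 => exact key _ (by omega) (Or.inr rfl)
    | fall h7 => exact key _ (by omega) (Or.inr rfl)

theorem LZ_far {B G : Set Edg} {v : Vtx} {y : ℤ × ℤ} (hv : Far v)
    (h : LZ {0} B G (fp v) y ∨ LZ {0} B G y (fp v)) :
    ∃ (w : Vtx) (e : Edg), y = fp w ∧ pe e ∈ B ∧ pe e ∈ Es ∧ pe e ∉ G ∧
      ((src e = v ∧ tgt e = w) ∨ (src e = w ∧ tgt e = v)) := by
  rcases h with ⟨E, hB, hz, ⟨hG, hD⟩ | ⟨hG, hD⟩⟩ | ⟨E, hB, hz, ⟨hG, hD⟩ | ⟨hG, hD⟩⟩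
  · exfalso
    have := Dg_par0 (Es_of_Dg hv hz (Or.inl hD)) hD
    exact fp_par v this.1
  · have hE := Es_of_Dg hv hz (Or.inl hD)
    obtain ⟨e, e1, e2, e3⟩ := Dg_inv hE hD
    refine ⟨tgt e, e, e3, e1 ▸ hB, e1 ▸ hE, e1 ▸ hG, Or.inl ⟨(fp_inj e2).symm, rfl⟩⟩
  · exfalso
    have := Dg_par0 (Es_of_Dg hv hz (Or.inr hD)) hD
    exact fp_par v this.2
  · have hE := Es_of_Dg hv hz (Or.inr hD)
    obtain ⟨e, e1, e2, e3⟩ := Dg_inv hE hD
    refine ⟨src e, e, e2, e1 ▸ hB, e1 ▸ hE, e1 ▸ hG, Or.inr ⟨rfl, (fp_inj e3).symm⟩⟩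

/-- inside of the box, not at its boundary -/
def InB (R : ℕ) (v : Vtx) : Prop := |v.1| + 3 ≤ R ∧ |v.2| + 3 ≤ R

theorem pe_bxz (g : Edg) (v : Vtx) (R : ℕ) (hv : src g = v ∨ tgt g = v) (h : InB R v) :
    pe g ∈ bxz R := by
  obtain ⟨h1, h2⟩ := h
  have h1' := abs_le.1 (le_refl |v.1|)
  have h2' := abs_le.1 (le_refl |v.2|)
  obtain ⟨x, y, b⟩ := g
  cases b
  · simp only [src_mk, tgt_false] at hv
    rw [(pe_mk x y).1]
    unfold bxz nm
    simp only [src_mk, tgt_true, Set.mem_ofPred_eq, max_le_iff, abs_le]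
    rcases hv with rfl | rfl <;> simp only at h1 h2 h1' h2' <;> omega
  · simp only [src_mk, tgt_true] at hv
    rw [(pe_mk x y).2]
    unfold bxz nm
    simp only [src_mk, tgt_false, Set.mem_ofPred_eq, max_le_iff, abs_le]
    rcases hv with rfl | rfl <;> simp only at h1 h2 h1' h2' <;> omega

end K

section K2

variable {N L r : ℕ} {Ci Co : Cel}

theorem near_face (e : Edg) :
    |(src e).1 - (tgt e).1| ≤ 1 ∧ |(src e).2 - (tgt e).2| ≤ 1 := by
  obtain ⟨x, y, b⟩ := e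
  cases b <;> simp

theorem U_facts (hr : 1 ≤ r) {u : Vtx} (h : ∃ e : Edg, pe e ∉ EP r (BxI N L) ∧
      pe e ∈ EP r (TubI N L Ci Co) ∧ (src e = u ∨ tgt e = u)) :
    ¬ Bv N L r u ∧ ∃ U2 : Vtx, |u.1 - U2.1| ≤ 1 ∧ |u.2 - U2.2| ≤ 1 ∧ fl r U2 ∈ TubI N L Ci Co := by
  obtain ⟨e, h1, h2, hw⟩ := h
  obtain ⟨p1, p2, p3⟩ := pe_eq e
  rw [EP_iff r hr, p1, p2] at h1 h2
  obtain ⟨n1, n2⟩ := near_face e
  have hB : ¬ Bv N L r (src e) ∧ ¬ Bv N L r (tgt e) := by
    unfold Bv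
    tauto
  refine ⟨?_, ?_⟩
  · rcases hw with hw | hw
    · exact hw ▸ hB.1
    · exact hw ▸ hB.2
  · rcases h2 with h | h
    · refine ⟨src e, ?_, ?_, h⟩
      · rcases hw with hw | hw <;> rw [← hw]
        · simp
        · rw [abs_sub_comm]; exact n1
      · rcases hw with hw | hw <;> rw [← hw]
        · simp
        · rw [abs_sub_comm]; exact n2
    · refine ⟨tgt e, ?_, ?_, h⟩
      · rcases hw with hw | hw <;> rw [← hw]
        · exact n1
        · simp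
      · rcases hw with hw | hw <;> rw [← hw]
        · exact n2
        · simp

/-- a marked point near a far face is a face of the closed region -/
theorem XA_far (hr : 1 ≤ r) {x : ℤ × ℤ} (h : XA N L r Ci Co x) {p : Vtx} (hx : x = fp p)
    (hp : Far p) : ¬ Pv N L r Ci Co p := by
  subst hx
  rcases h with ⟨c, hc, h⟩ | ⟨E, ⟨h1, h2⟩, hz, y, hD⟩ | ⟨E, h1, h2, hz, y, hD⟩
  · exfalso
    have h3 := hp
    unfold Far at h3
    unfold fp scz at h
    simp only [Prod.mk.injEq] at h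
    obtain ⟨h4, h5⟩ := h
    have h7 : (c : ℤ) < 3 := by exact_mod_cast hc
    have h8 : (0 : ℤ) ≤ c := by positivity
    simp only [mul_zero, zero_add] at h4
    omega
  · have hE := Es_of_Dg hp hz hD
    have key : ∃ e : Edg, pe e = E ∧ (src e = p ∨ tgt e = p) := by
      rcases hD with hD | hD
      · obtain ⟨e, e1, e2, e3⟩ := Dg_inv hE hD
        exact ⟨e, e1, Or.inl (fp_inj e2).symm⟩
      · obtain ⟨e, e1, e2, e3⟩ := Dg_inv hE hD
        exact ⟨e, e1, Or.inr (fp_inj e3).symm⟩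
    obtain ⟨e, rfl, hw⟩ := key
    obtain ⟨p1, p2, p3⟩ := pe_eq e
    rw [EP_iff r hr, p1, p2] at h1 h2
    unfold Pv
    rintro (h | h)
    · apply h1
      rcases hw with hw | hw <;> rw [← hw] at h
      · exact Or.inl h
      · exact Or.inr h
    · apply h2
      rcases hw with hw | hw <;> rw [← hw] at h
      · exact Or.inl h
      · exact Or.inr h
  · exfalso
    have hE := Es_of_Dg hp hz hD
    rcases hD with hD | hD
    · exact fp_par p (Dg_par0 hE hD).1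
    · exact fp_par p (Dg_par0 hE hD).2

end K2

/-! ### the closed region -/

section K3

variable {N L r : ℕ} {Ci Co : Cel} {R : ℕ} {F : Finset Edg}

/-- near a face -/
def Ne (r : ℕ) (u w : Vtx) : Prop := 4 * |w.1 - u.1| ≤ 3 * r ∧ 4 * |w.2 - u.2| ≤ 3 * r

/-- the closed region -/
def R0 (N L r : ℕ) (Ci Co : Cel) (u w : Vtx) : Prop := ¬ Pv N L r Ci Co w ∧ Ne r u w

theorem Pv_of_Bv {v : Vtx} (h : Bv N L r v) : Pv N L r Ci Co v := Or.inl h

theorem K_outer (hr : 1 ≤ r) {u : Vtx} (hfar : ∀ w, Ne r u w → InB R w ∧ Far w) (g : Edg)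
    (h1 : R0 N L r Ci Co u (src g)) (h2 : R0 N L r Ci Co u (tgt g)) :
    g ∈ KK N L r Ci Co R F ∩ {g | R0 N L r Ci Co u (src g) ∧ R0 N L r Ci Co u (tgt g)} := by
  refine ⟨?_, h1, h2⟩
  rw [K_iff hr]
  refine ⟨Es_far g (hfar _ h1.2).2 (Or.inl rfl), pe_bxz g _ R (Or.inl rfl) (hfar _ h1.2).1, ?_,
    fun _ _ => ⟨h1.1, h2.1⟩⟩
  rintro (h | h)
  · exact absurd (Pv_of_Bv h) h1.1
  · exact absurd (Pv_of_Bv h) h2.1

theorem Lsh (hr : 1 ≤ r) {u : Vtx} (hfar : ∀ w, Ne r u w → InB R w ∧ Far w) (v v' : Vtx)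
    (hv : ¬ Pv N L r Ci Co v) (hv' : ¬ Pv N L r Ci Co v')
    (hm : ¬ Pv N L r Ci Co (v'.1, v.2))
    (h1 : |v.1 / (r : ℤ) - v'.1 / r| ≤ 1) (h2 : |v.2 / (r : ℤ) - v'.2 / r| ≤ 1)
    (q1 : Ne r u v) (q2 : Ne r u v') :
    Reach (KK N L r Ci Co R F ∩ {g | R0 N L r Ci Co u (src g) ∧ R0 N L r Ci Co u (tgt g)}) v v' := by
  have hH : ∀ w : ℤ, min v.1 v'.1 ≤ w → w ≤ max v.1 v'.1 → R0 N L r Ci Co u (w, v.2) := by
    intro w h3 h4
    refine ⟨?_, ?_⟩
    · rcases btw r hr h1 h3 h4 with h | h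
      · have e : fl r (w, v.2) = fl r v := by
          unfold H12S.fl
          simp only [h]
        unfold Pv
        rw [e]
        exact hv
      · have e : fl r (w, v.2) = fl r (v'.1, v.2) := by
          unfold H12S.fl
          simp only [h]
        unfold Pv
        rw [e]
        exact hm
    · refine ⟨?_, q1.2⟩
      simp only
      have k1 := q1.1
      have k2 := q2.1
      have a3 := abs_le.1 (le_refl |v.1 - u.1|)
      have a4 := abs_le.1 (le_refl |v'.1 - u.1|)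
      have : |w - u.1| ≤ max |v.1 - u.1| |v'.1 - u.1| := by
        rw [abs_le]
        rcases le_total v.1 v'.1 with h6 | h6
        · rw [min_eq_left h6] at h3; rw [max_eq_right h6] at h4
          constructor
          · linarith [le_max_left |v.1 - u.1| |v'.1 - u.1|, a3.1]
          · linarith [le_max_right |v.1 - u.1| |v'.1 - u.1|, a4.2]
        · rw [min_eq_right h6] at h3; rw [max_eq_left h6] at h4
          constructor
          · linarith [le_max_right |v.1 - u.1| |v'.1 - u.1|, a4.1]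
          · linarith [le_max_left |v.1 - u.1| |v'.1 - u.1|, a3.2]
      rcases max_choice |v.1 - u.1| |v'.1 - u.1| with h7 | h7 <;> rw [h7] at this <;> linarith
  have hV : ∀ w : ℤ, min v.2 v'.2 ≤ w → w ≤ max v.2 v'.2 → R0 N L r Ci Co u (v'.1, w) := by
    intro w h3 h4
    refine ⟨?_, ?_⟩
    · rcases btw r hr h2 h3 h4 with h | h
      · have e : fl r (v'.1, w) = fl r (v'.1, v.2) := by
          unfold H12S.fl
          simp only [h]
        unfold Pv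
        rw [e]
        exact hm
      · have e : fl r (v'.1, w) = fl r v' := by
          unfold H12S.fl
          simp only [h]
        unfold Pv
        rw [e]
        exact hv'
    · refine ⟨q2.1, ?_⟩
      simp only
      have k1 := q1.2
      have k2 := q2.2
      have a3 := abs_le.1 (le_refl |v.2 - u.2|)
      have a4 := abs_le.1 (le_refl |v'.2 - u.2|)
      have : |w - u.2| ≤ max |v.2 - u.2| |v'.2 - u.2| := by
        rw [abs_le]
        rcases le_total v.2 v'.2 with h6 | h6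
        · rw [min_eq_left h6] at h3; rw [max_eq_right h6] at h4
          constructor
          · linarith [le_max_left |v.2 - u.2| |v'.2 - u.2|, a3.1]
          · linarith [le_max_right |v.2 - u.2| |v'.2 - u.2|, a4.2]
        · rw [min_eq_right h6] at h3; rw [max_eq_left h6] at h4
          constructor
          · linarith [le_max_right |v.2 - u.2| |v'.2 - u.2|, a4.1]
          · linarith [le_max_left |v.2 - u.2| |v'.2 - u.2|, a3.2]
      rcases max_choice |v.2 - u.2| |v'.2 - u.2| with h7 | h7 <;> rw [h7] at this <;> linarith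
  have p1 : Reach (KK N L r Ci Co R F ∩ {g | R0 N L r Ci Co u (src g) ∧ R0 N L r Ci Co u (tgt g)})
      (v.1, v.2) (v'.1, v.2) := by
    apply hseg
    intro w h3 h4
    apply K_outer hr hfar
    · exact hH w h3 h4.le
    · exact hH (w + 1) (by omega) (by omega)
  have p2 : Reach (KK N L r Ci Co R F ∩ {g | R0 N L r Ci Co u (src g) ∧ R0 N L r Ci Co u (tgt g)})
      (v'.1, v.2) (v'.1, v'.2) := by
    apply vseg
    intro w h3 h4
    apply K_outer hr hfar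
    · exact hV w h3 h4.le
    · exact hV (w + 1) (by omega) (by omega)
  exact p1.trans p2

theorem RR (hr : 1 ≤ r)
    (hc1 : ∀ x y : ℤ, (x, y) ∉ BxI N L ∪ TubI N L Ci Co → (x + 1, y + 1) ∉ BxI N L ∪ TubI N L Ci Co →
      (x + 1, y) ∉ BxI N L ∪ TubI N L Ci Co ∨ (x, y + 1) ∉ BxI N L ∪ TubI N L Ci Co)
    (hc2 : ∀ x y : ℤ, (x + 1, y) ∉ BxI N L ∪ TubI N L Ci Co → (x, y + 1) ∉ BxI N L ∪ TubI N L Ci Co →
      (x, y) ∉ BxI N L ∪ TubI N L Ci Co ∨ (x + 1, y + 1) ∉ BxI N L ∪ TubI N L Ci Co)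
    {u : Vtx} (hfar : ∀ w, Ne r u w → InB R w ∧ Far w) (v v' : Vtx)
    (hv : ¬ Pv N L r Ci Co v) (hv' : ¬ Pv N L r Ci Co v')
    (h1 : |v.1 / (r : ℤ) - v'.1 / r| ≤ 1) (h2 : |v.2 / (r : ℤ) - v'.2 / r| ≤ 1)
    (q1 : Ne r u v) (q2 : Ne r u v') :
    Reach (KK N L r Ci Co R F ∩ {g | R0 N L r Ci Co u (src g) ∧ R0 N L r Ci Co u (tgt g)}) v v' := by
  have hr0 : (0 : ℤ) < r := by exact_mod_cast hr
  have key : ¬ Pv N L r Ci Co (v'.1, v.2) ∨ ¬ Pv N L r Ci Co (v.1, v'.2) := by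
    have ha := hv
    have hb := hv'
    unfold Pv H12S.fl at ha hb ⊢
    simp only at ha hb ⊢
    rw [abs_le] at h1 h2
    set a := v.1 / (r : ℤ)
    set b := v.2 / (r : ℤ)
    set a' := v'.1 / (r : ℤ)
    set b' := v'.2 / (r : ℤ)
    by_cases e1 : a = a'
    · left; rw [← e1]; exact ha
    by_cases e2 : b = b'
    · left; rw [e2]; exact hb
    by_cases e3 : a' = a + 1
    · by_cases e4 : b' = b + 1
      · rw [e3, e4] at hb ⊢
        exact hc1 a b ha hb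
      · have e5 : b = b' + 1 := by omega
        rw [e3] at hb ⊢
        rw [e5] at ha ⊢
        exact (hc2 a b' hb ha).symm
    · have e6 : a = a' + 1 := by omega
      by_cases e4 : b' = b + 1
      · rw [e6] at ha ⊢
        rw [e4] at hb ⊢
        exact hc2 a' b ha hb
      · have e5 : b = b' + 1 := by omega
        rw [e6, e5] at ha ⊢
        exact (hc1 a' b' hb ha).symm
  rcases key with h | h
  · exact Lsh hr hfar v v' hv hv' h h1 h2 q1 q2
  · refine (Lsh hr hfar v' v hv' hv h ?_ ?_ q2 q1).symm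
    · rw [abs_sub_comm]; exact h1
    · rw [abs_sub_comm]; exact h2

end K3

/-! ### the context -/

structure Ctx (N L r ρ l : ℕ) (Ci Co : Cel) (R : ℕ) (F : Finset Edg) : Prop where
  hN : 16 ≤ N
  hL : 3 * N ≤ L
  hl : 1 ≤ l
  hlρ : 32 * l ≤ ρ
  hρr : 32 * ρ ≤ r
  hR : 4 * (L * r) ≤ R
  hbad : ¬ Bad 1 N L r ρ l (↑F : Set Edg)
  hc1 : ∀ x y : ℤ, (x, y) ∉ BxI N L ∪ TubI N L Ci Co → (x + 1, y + 1) ∉ BxI N L ∪ TubI N L Ci Co →
      (x + 1, y) ∉ BxI N L ∪ TubI N L Ci Co ∨ (x, y + 1) ∉ BxI N L ∪ TubI N L Ci Co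
  hc2 : ∀ x y : ℤ, (x + 1, y) ∉ BxI N L ∪ TubI N L Ci Co → (x, y + 1) ∉ BxI N L ∪ TubI N L Ci Co →
      (x, y) ∉ BxI N L ∪ TubI N L Ci Co ∨ (x + 1, y + 1) ∉ BxI N L ∪ TubI N L Ci Co
  htube : ∀ z ∈ TubI N L Ci Co, (-(L : ℤ) ≤ z.1 ∧ z.1 < L ∧ -(L : ℤ) ≤ z.2 ∧ z.2 < L) ∧
    ¬ (-(N : ℤ) ≤ z.1 ∧ z.1 < N ∧ -(N : ℤ) ≤ z.2 ∧ z.2 < N) ∧
    ((N : ℤ) ≤ z.1 - z.2 ∨ z.1 + z.2 ≤ -6 ∨ 5 ≤ z.1 + z.2)

section C

variable {N L r ρ l : ℕ} {Ci Co : Cel} {R : ℕ} {F : Finset Edg}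

theorem Ctx.r1 (h : Ctx N L r ρ l Ci Co R F) : 1024 ≤ r := by
  have := h.hl; have := h.hlρ; have := h.hρr
  omega

/-- in the box `[-L r, L r]` -/
def InL (L r : ℕ) (U : Vtx) : Prop := |U.1| ≤ L * r + 1 ∧ |U.2| ≤ L * r + 1

/-- at distance about `4 r` from the zipper -/
def Fr (r : ℕ) (U : Vtx) : Prop := 4 * (r : ℤ) - 4 ≤ U.1 - U.2 ∨
  U.1 + U.2 ≤ -(4 * r) + 4 ∨ 4 * (r : ℤ) - 4 ≤ U.1 + U.2

/-- vertices near a face of a tube -/
theorem near_ok (h : Ctx N L r ρ l Ci Co R F) {U : Vtx} (hU : Fr r U)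
    (hb : InL L r U) (v : Vtx) (h1 : 4 * |v.1 - U.1| ≤ 3 * r)
    (h2 : 4 * |v.2 - U.2| ≤ 3 * r) :
    InB R v ∧ Far v := by
  have hr : (1024 : ℤ) ≤ r := by exact_mod_cast h.r1
  have hR : (4 : ℤ) * (L * r) ≤ R := by exact_mod_cast h.hR
  have hL : (48 : ℤ) ≤ L := by have := h.hN; have := h.hL; omega
  have hLr : (48 : ℤ) * r ≤ L * r := by nlinarith
  have a1 := abs_le.1 (le_refl |v.1 - U.1|)
  have a2 := abs_le.1 (le_refl |v.2 - U.2|)
  obtain ⟨b1, b2⟩ := hb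
  have c1 := abs_le.1 b1
  have c2 := abs_le.1 b2
  constructor
  · have e1 : |v.1| ≤ L * r + 1 + r := by
      rw [abs_le]
      constructor <;> linarith [a1.1, a1.2, c1.1, c1.2]
    have e2 : |v.2| ≤ L * r + 1 + r := by
      rw [abs_le]
      constructor <;> linarith [a2.1, a2.2, c2.1, c2.2]
    constructor <;> linarith
  · rcases hU with h3 | h3 | h3
    · left
      linarith [a1.1, a1.2, a2.1, a2.2]
    · right; left
      linarith [a1.1, a1.2, a2.1, a2.2]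
    · right; right
      linarith [a1.1, a1.2, a2.1, a2.2]

/-- a boundary point connected to a marked point -/
structure Pnt (N L r : ℕ) (Ci Co : Cel) (R : ℕ) (F : Finset Edg) (u : Vtx) (x : ℤ × ℤ) :
    Prop where
  nB : ¬ Bv N L r u
  dg : Fr r u
  band : InL L r u
  mark : XA N L r Ci Co x
  con : RA N L r Ci Co R F x (fp u)

/-- exit -/
theorem exit' (h : Ctx N L r ρ l Ci Co R F) {u : Vtx} {x : ℤ × ℤ}
    (hp : Pnt N L r Ci Co R F u x) (P : Vtx → Prop) (hPu : P u) (hPp : ∀ p, x = fp p → ¬ P p)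
    (hPn : ∀ v, P v → 4 * |v.1 - u.1| ≤ 3 * r ∧ 4 * |v.2 - u.2| ≤ 3 * r) :
    ∃ v w : Vtx, Reach (KK N L r Ci Co R F ∩ {e | P (src e) ∧ P (tgt e)}) u v ∧ P v ∧ ¬ P w ∧
      ∃ e ∈ KK N L r Ci Co R F, (src e = v ∧ tgt e = w) ∨ (src e = w ∧ tgt e = v) := by
  by_contra hcon
  have hok : ∀ v, P v → InB R v ∧ Far v := fun v hv =>
    near_ok h hp.dg hp.band v (hPn v hv).1 (hPn v hv).2
  set T : ℤ × ℤ → Prop := fun z => ∃ v, z = fp v ∧
    Reach (KK N L r Ci Co R F ∩ {e | P (src e) ∧ P (tgt e)}) u v ∧ P v with hT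
  have step : ∀ a b, (LZ {0} (bxz R) (↑(FA N L r Ci Co R F) : Set Edg) a b ∨
      LZ {0} (bxz R) (↑(FA N L r Ci Co R F) : Set Edg) b a) → T a → T b := by
    rintro a b hab ⟨v, rfl, hv1, hv2⟩
    obtain ⟨w, e, rfl, he0, he1, he2, hew⟩ := LZ_far (hok v hv2).2 hab
    have heK : e ∈ KK N L r Ci Co R F := ⟨⟨he0, he2⟩, he1⟩
    by_cases hw : P w
    · refine ⟨w, rfl, hv1.trans (Relation.ReflTransGen.single ⟨e, ⟨heK, ?_⟩, hew⟩), hw⟩
      rcases hew with ⟨h1, h2⟩ | ⟨h1, h2⟩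
      · exact ⟨h1 ▸ hv2, h2 ▸ hw⟩
      · exact ⟨h1 ▸ hw, h2 ▸ hv2⟩
    · exact absurd ⟨v, w, hv1, hv2, hw, e, heK, hew⟩ hcon
  have key : ∀ a b, RA N L r Ci Co R F a b → (T a ↔ T b) := by
    intro a b hab
    induction hab with
    | rel a b hab => exact ⟨step a b (Or.inl hab), step b a (Or.inr hab)⟩
    | refl a => exact Iff.rfl
    | symm a b _ ih => exact ih.symm
    | trans a b c _ _ ih1 ih2 => exact ih1.trans ih2
  obtain ⟨p, hp1, hp2, hp3⟩ := (key _ _ hp.con).2 ⟨u, rfl, Reach.refl _ _, hPu⟩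
  exact hPp p hp1 hp3

/-- lift -/
theorem lift' {P : Vtx → Prop} {u y : Vtx}
    (hR : Reach (KK N L r Ci Co R F ∩ {e | P (src e) ∧ P (tgt e)}) u y) :
    RA N L r Ci Co R F (fp u) (fp y) := by
  induction hR with
  | refl => exact Relation.EqvGen.refl _
  | @tail a b hab hb ih =>
    refine ih.trans _ _ _ ?_
    obtain ⟨e, ⟨⟨⟨he0, he1⟩, he2⟩, -⟩, hab'⟩ := hb
    have hd : LZ {0} (bxz R) (↑(FA N L r Ci Co R F) : Set Edg) (fp (src e)) (fp (tgt e)) :=
      ⟨pe e, he0, Es_zp he2, Or.inr ⟨he1, Dg_pe e he2⟩⟩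
    rcases hab' with ⟨h1, h2⟩ | ⟨h1, h2⟩
    · rw [h1, h2] at hd
      exact Relation.EqvGen.rel _ _ hd
    · rw [h1, h2] at hd
      exact Relation.EqvGen.symm _ _ (Relation.EqvGen.rel _ _ hd)

theorem outer (h : Ctx N L r ρ l Ci Co R F) {u : Vtx} {p : ℤ × ℤ} (hp : Pnt N L r Ci Co R F u p)
    {y y' : Vtx} (hv : ¬ Pv N L r Ci Co y)
    (hv' : ¬ Pv N L r Ci Co y')
    (h1 : |y.1 / (r : ℤ) - y'.1 / r| ≤ 1) (h2 : |y.2 / (r : ℤ) - y'.2 / r| ≤ 1)
    (q1 : Ne r u y) (q2 : Ne r u y') :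
    RA N L r Ci Co R F (fp y) (fp y') := by
  have hr1 : 1 ≤ r := by have := h.r1; omega
  have hR := RR (F := F) (R := R) hr1 h.hc1 h.hc2
    (fun w hw => near_ok h hp.dg hp.band w hw.1 hw.2) y y' hv hv' h1 h2 q1 q2
  exact lift' hR

theorem zeta_ok (h : Ctx N L r ρ l Ci Co R F) {U : Vtx} (hB : ¬ Bv N L r U)
    (hU : Pv N L r Ci Co U) {ζ : ℤ × ℤ} (hz : QQ r ζ U) : (|ζ.1| ≤ L ∧ |ζ.2| ≤ L) ∧
      ((N : ℤ) ≤ |ζ.1| ∨ (N : ℤ) ≤ |ζ.2|) := by
  have hr1 : 1 ≤ r := by have := h.r1; omega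
  obtain ⟨h1, h2⟩ := QQ_div hr1 hz
  have hT : fl r U ∈ TubI N L Ci Co := by
    rcases hU with h3 | h3
    · exact absurd h3 hB
    · exact h3
  obtain ⟨⟨b1, b2, b3, b4⟩, b5, b6⟩ := h.htube _ hT
  unfold H12S.fl at b1 b2 b3 b4 b5
  simp only at b1 b2 b3 b4 b5
  refine ⟨⟨?_, ?_⟩, ?_⟩
  · rw [abs_le]; omega
  · rw [abs_le]; omega
  · by_contra hcon
    push Not at hcon
    obtain ⟨h3, h4⟩ := hcon
    apply b5
    rw [abs_lt] at h3 h4
    omega

/-- everything near a coarse vertex near a tube is near the face -/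
theorem QQ_near (h : Ctx N L r ρ l Ci Co R F) {ζ : ℤ × ℤ} {u v : Vtx}
    (hz : nz r (4 * ρ) ζ u) (hv : QQ r ζ v) : Ne r u v := by
  have hr : (1024 : ℤ) ≤ r := by exact_mod_cast h.r1
  have hρ : (32 : ℤ) * ρ ≤ r := by exact_mod_cast h.hρr
  obtain ⟨⟨h1, h2⟩, h3, h4⟩ := hv
  obtain ⟨h9, h10⟩ := hz
  have a1 := abs_le.1 h9
  have a2 := abs_le.1 h10
  have hr2 : 2 * ((r / 2 : ℕ) : ℤ) ≤ r := by push_cast; omega
  constructor
  · have : |v.1 - u.1| ≤ (r / 2 : ℕ) + 4 * ρ := by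
      rw [abs_le]; constructor <;> linarith [a1.1, a1.2]
    linarith
  · have : |v.2 - u.2| ≤ (r / 2 : ℕ) + 4 * ρ := by
      rw [abs_le]; constructor <;> linarith [a2.1, a2.2]
    linarith

theorem tube_pos (h : Ctx N L r ρ l Ci Co R F) {z : Vtx} (hU : Pv N L r Ci Co z)
    (hB : ¬ Bv N L r z) :
    ((-((L : ℤ) * r) ≤ z.1 ∧ z.1 < L * r) ∧ (-((L : ℤ) * r) ≤ z.2 ∧ z.2 < L * r)) ∧
      ¬ (-((N : ℤ) * r) ≤ z.1 ∧ z.1 < N * r ∧ -((N : ℤ) * r) ≤ z.2 ∧ z.2 < N * r) := by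
  have hr1 : 1 ≤ r := by have := h.r1; omega
  have hr0 : (0 : ℤ) < r := by exact_mod_cast hr1
  have hT : fl r z ∈ TubI N L Ci Co := by
    rcases hU with h3 | h3
    · exact absurd h3 hB
    · exact h3
  obtain ⟨⟨b1, b2, b3, b4⟩, b5, b6⟩ := h.htube _ hT
  obtain ⟨⟨z1, z2⟩, z3, z4⟩ := (fl_iff r hr1 z _).1 rfl
  generalize fl r z = q at *
  refine ⟨⟨⟨?_, ?_⟩, ?_, ?_⟩, ?_⟩
  · nlinarith
  · nlinarith
  · nlinarith
  · nlinarith
  · rintro ⟨c1, c2, c3, c4⟩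
    apply b5
    refine ⟨?_, ?_, ?_, ?_⟩
    · by_contra hc
      have : q.1 ≤ -(N : ℤ) - 1 := by omega
      nlinarith
    · by_contra hc
      have : (N : ℤ) ≤ q.1 := by omega
      nlinarith
    · by_contra hc
      have : q.2 ≤ -(N : ℤ) - 1 := by omega
      nlinarith
    · by_contra hc
      have : (N : ℤ) ≤ q.2 := by omega
      nlinarith

/-- near a coarse vertex the cluster reaches the outer region -/
theorem lemE (h : Ctx N L r ρ l Ci Co R F) {u : Vtx} {p : ℤ × ℤ}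
    (hp : Pnt N L r Ci Co R F u p) (hU : Pv N L r Ci Co u) (ζ : ℤ × ℤ)
    (hz : nz r (4 * ρ) ζ u) : ∃ y : Vtx, ¬ Pv N L r Ci Co y ∧
      QQ r ζ y ∧ RA N L r Ci Co R F (fp u) (fp y) := by
  have hρ := h.hρr
  have hlρ := h.hlρ
  have hl := h.hl
  have hr := h.r1
  have hr1 : 1 ≤ r := by omega
  have hQu : QQ r ζ u := nz_QQ hz (by push_cast; omega)
  have hnear : ∀ v, QQ r ζ v → 4 * |v.1 - u.1| ≤ 3 * r ∧ 4 * |v.2 - u.2| ≤ 3 * r := by
    rintro v ⟨⟨h1, h2⟩, h3, h4⟩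
    obtain ⟨h5, h6⟩ := hz
    have h5' := abs_le.1 h5
    have h6' := abs_le.1 h6
    have hr2 : 2 * ((r / 2 : ℕ) : ℤ) ≤ r := by push_cast; omega
    have hρ' : (32 : ℤ) * ρ ≤ r := by exact_mod_cast hρ
    constructor
    · have : |v.1 - u.1| ≤ (r / 2 : ℕ) + 4 * ρ := by
        rw [abs_le]; constructor <;> linarith [h5'.1, h5'.2]
      linarith
    · have : |v.2 - u.2| ≤ (r / 2 : ℕ) + 4 * ρ := by
        rw [abs_le]; constructor <;> linarith [h6'.1, h6'.2]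
      linarith
  by_cases hq : ∃ q : Vtx, p = fp q ∧ QQ r ζ q
  · obtain ⟨q, hpq, hq⟩ := hq
    refine ⟨q, ?_, hq, ?_⟩
    · have h4 := hnear _ hq
      have h5 := (near_ok h hp.dg hp.band _ h4.1 h4.2).2
      exact XA_far hr1 hp.mark hpq h5
    · rw [← hpq]
      exact Relation.EqvGen.symm _ _ hp.con
  · obtain ⟨v, w, hR, hv, hw, e, he, hew⟩ := exit' h hp (QQ r ζ) hQu
      (fun q h1 h2 => hq ⟨q, h1, h2⟩) hnear
    have key : ∀ v, Reach (KK N L r Ci Co R F ∩ {e | QQ r ζ (src e) ∧ QQ r ζ (tgt e)}) u v →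
        (∃ g, Reach (KK N L r Ci Co R F ∩ {e | QQ r ζ (src e) ∧ QQ r ζ (tgt e)}) u g ∧
          ¬ Pv N L r Ci Co g ∧ QQ r ζ g) ∨ (Reach (Cp 1 (↑F : Set Edg)) u v ∧ Pv N L r Ci Co v) := by
      intro v hR
      induction hR with
      | refl => exact Or.inr ⟨Reach.refl _ _, hU⟩
      | @tail a b hab hb ih =>
        rcases ih with ih | ⟨ih1, ih2⟩
        · exact Or.inl ih
        · obtain ⟨e, ⟨he1, he2, he3⟩, hab'⟩ := hb
          by_cases hbP : Pv N L r Ci Co b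
          · right
            refine ⟨ih1.trans (Relation.ReflTransGen.single ⟨e, ?_, hab'⟩), hbP⟩
            obtain ⟨-, k1, k3, k4⟩ := (K_iff hr1 e).1 he1
            rw [mem_Cp]
            refine k3 ?_
            by_contra hcon
            push Not at hcon
            have k5 := k4 hcon.1 hcon.2
            rcases hab' with ⟨h1, h2⟩ | ⟨h1, h2⟩
            · exact k5.1 (h1 ▸ ih2)
            · exact k5.2 (h2 ▸ ih2)
          · left
            refine ⟨b, hab.trans (Relation.ReflTransGen.single ⟨e, ⟨he1, he2, he3⟩, hab'⟩), hbP, ?_⟩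
            rcases hab' with ⟨h1, h2⟩ | ⟨h1, h2⟩
            · exact h2 ▸ he3
            · exact h1 ▸ he2
    rcases key v hR with ⟨g, hg1, hg2, hg3⟩ | ⟨hv1, hv2⟩
    · exact ⟨g, hg2, hg3, lift' hg1⟩
    · exfalso
      apply h.hbad
      left
      obtain ⟨z1, z2⟩ := zeta_ok h hp.nB hU hQu
      refine ⟨ζ, z1, z2, u, w, ?_, ?_, ?_⟩
      · obtain ⟨h5, h6⟩ := hz
        rw [abs_le] at h5 h6
        unfold inR
        push_cast
        refine ⟨⟨by linarith, by linarith⟩, by linarith, by linarith⟩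
      · by_contra hcon
        apply hw
        push Not at hcon
        obtain ⟨h5, h6, h7, h8⟩ := hcon
        exact ⟨⟨h5, h6⟩, h7, h8⟩
      · refine hv1.trans (Relation.ReflTransGen.single ⟨e, ?_, hew⟩)
        obtain ⟨-, k1, k3, k4⟩ := (K_iff hr1 e).1 he
        rw [mem_Cp]
        refine k3 ?_
        by_contra hcon
        push Not at hcon
        have k5 := k4 hcon.1 hcon.2
        rcases hew with ⟨h1, h2⟩ | ⟨h1, h2⟩
        · exact k5.1 (h1 ▸ hv2)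
        · exact k5.2 (h2 ▸ hv2)

theorem RA_chain {p u y y' u' p' : ℤ × ℤ} (h1 : RA N L r Ci Co R F p u)
    (h2 : RA N L r Ci Co R F u y) (h3 : RA N L r Ci Co R F y y')
    (h4 : RA N L r Ci Co R F u' y') (h5 : RA N L r Ci Co R F p' u') :
    RA N L r Ci Co R F p p' :=
  (((h1.trans _ _ _ h2).trans _ _ _ h3).trans _ _ _ (Relation.EqvGen.symm _ _ h4)).trans _ _ _
    (Relation.EqvGen.symm _ _ h5)

/-- both near a coarse vertex -/
theorem two (h : Ctx N L r ρ l Ci Co R F) {u u' : Vtx} {p p' : ℤ × ℤ}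
    (hp : Pnt N L r Ci Co R F u p) (hp' : Pnt N L r Ci Co R F u' p')
    (hU : Pv N L r Ci Co u) (hU' : Pv N L r Ci Co u') (ζ : ℤ × ℤ)
    (hz : nz r (4 * ρ) ζ u) (hz' : nz r (4 * ρ) ζ u') :
    RA N L r Ci Co R F p p' := by
  have hρ := h.hρr
  have hr := h.r1
  have hr1 : 1 ≤ r := by omega
  obtain ⟨y, y2, y3, y4⟩ := lemE h hp hU ζ hz
  obtain ⟨y', y2', y3', y4'⟩ := lemE h hp' hU' ζ hz'
  refine RA_chain hp.con y4 (outer h hp y2 y2' ?_ ?_ (QQ_near h hz y3)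
    (QQ_near h hz y3')) y4' hp'.con
  · have a1 := (QQ_div hr1 y3).1
    have a2 := (QQ_div hr1 y3').1
    rw [abs_le]; omega
  · have a1 := (QQ_div hr1 y3).2
    have a2 := (QQ_div hr1 y3').2
    rw [abs_le]; omega

/-- one near a coarse vertex, the other in the outer region -/
theorem mixed (h : Ctx N L r ρ l Ci Co R F) {u u' : Vtx} {p p' : ℤ × ℤ}
    (hp : Pnt N L r Ci Co R F u p) (hp' : Pnt N L r Ci Co R F u' p')
    (hU : Pv N L r Ci Co u) (hU' : ¬ Pv N L r Ci Co u') (ζ : ℤ × ℤ)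
    (hz : nz r (4 * ρ) ζ u) (hz' : nz r (4 * ρ) ζ u') :
    RA N L r Ci Co R F p p' := by
  have hρ := h.hρr
  have hr := h.r1
  have hr1 : 1 ≤ r := by omega
  obtain ⟨y, y2, y3, y4⟩ := lemE h hp hU ζ hz
  have y3' : QQ r ζ u' := nz_QQ hz' (by push_cast; omega)
  refine RA_chain hp.con y4 (outer h hp y2 hU' ?_ ?_ (QQ_near h hz y3)
    (QQ_near h hz y3')) (Relation.EqvGen.refl _) hp'.con
  · have a1 := (QQ_div hr1 y3).1
    have a2 := (QQ_div hr1 y3').1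
    rw [abs_le]; omega
  · have a1 := (QQ_div hr1 y3).2
    have a2 := (QQ_div hr1 y3').2
    rw [abs_le]; omega

/-! ### the neighbour of a tube face in a box -/

theorem nb (h : Ctx N L r ρ l Ci Co R F) {u : Vtx} {p : ℤ × ℤ}
    (hp : Pnt N L r Ci Co R F u p) (hU : Pv N L r Ci Co u) :
    ∃ w : Vtx, Bv N L r w ∧ (∃ e ∈ KK N L r Ci Co R F, (src e = u ∧ tgt e = w) ∨
      (src e = w ∧ tgt e = u)) := by
  have hr1 : 1 ≤ r := by have := h.r1; omega
  have hr : (1024 : ℤ) ≤ r := by exact_mod_cast h.r1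
  have hne : ∀ q, p = fp q → ¬ (q = u) := by
    rintro q h1 rfl
    exact XA_far hr1 hp.mark h1 (near_ok h hp.dg hp.band q (by simp) (by simp)).2 hU
  obtain ⟨v, w, hR, hv, hw, e, he, hew⟩ := exit' h hp (fun v => v = u) rfl hne
    (fun v hv => by rw [hv]; simp)
  subst hv
  refine ⟨w, ?_, e, he, hew⟩
  by_contra hB
  obtain ⟨-, k1, k3, k4⟩ := (K_iff hr1 e).1 he
  rcases hew with ⟨h1, h2⟩ | ⟨h1, h2⟩
  · have := k4 (by rw [h1]; exact hp.nB) (by rw [h2]; exact hB)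
    rw [h1] at this
    exact this.1 hU
  · have := k4 (by rw [h1]; exact hB) (by rw [h2]; exact hp.nB)
    rw [h2] at this
    exact this.2 hU

end C

/-! ### half balls -/

section D

variable {N L r ρ l : ℕ} {Ci Co : Cel} {R : ℕ} {F : Finset Edg}

theorem KC (h : Ctx N L r ρ l Ci Co R F) {e : Edg} (he : e ∈ KK N L r Ci Co R F)
    (hB : Bv N L r (src e) ∨ Bv N L r (tgt e)) : e ∈ Cp 1 (↑F : Set Edg) := by
  obtain ⟨-, k1, k3, k4⟩ := (K_iff (by have := h.r1; omega) e).1 he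
  rw [mem_Cp]
  exact k3 hB

theorem CK (h : Ctx N L r ρ l Ci Co R F) {e : Edg} (he : e ∈ Cp 1 (↑F : Set Edg)) (hd : pe e ∈ Es)
    (hb : pe e ∈ bxz R) (hB : Bv N L r (src e) ∨ Bv N L r (tgt e)) : e ∈ KK N L r Ci Co R F := by
  rw [mem_Cp] at he
  refine (K_iff (by have := h.r1; omega) e).2
    ⟨hd, hb, fun _ => he, ?_⟩
  intro h1 h2
  rcases hB with h3 | h3
  · exact absurd h3 h1
  · exact absurd h3 h2

/-- a half ball below a cell -/
structure HBc (N L r : ℕ) (Ci Co : Cel) (d : Dir) (x0 y0 : ℤ) (ρ : ℕ) : Prop where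
  ball : ∀ v, bal d x0 y0 ρ v → Bv N L r v
  row : ∀ v, (-(ρ : ℤ) - 1 ≤ tc d x0 y0 v ∧ tc d x0 y0 v ≤ ρ + 1) →
    (hc d x0 y0 v = -1 ∨ hc d x0 y0 v = -2) → Pv N L r Ci Co v ∧ ¬ Bv N L r v

theorem pj_reach (h : Ctx N L r ρ l Ci Co R F) {d : Dir} {x0 y0 : ℤ} (hb : HBc N L r Ci Co d x0 y0 ρ)
    {a b : Vtx} (hR : Reach (KK N L r Ci Co R F ∩ {e | bp d x0 y0 ρ (src e) ∧ bp d x0 y0 ρ (tgt e)}) a b) :
    Reach (Cp 1 (↑F : Set Edg) ∩ ↑(hbE d x0 y0 ρ)) (pj d x0 y0 a) (pj d x0 y0 b) := by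
  have key : ∀ e ∈ KK N L r Ci Co R F, bp d x0 y0 ρ (src e) → bp d x0 y0 ρ (tgt e) →
      Reach (Cp 1 (↑F : Set Edg) ∩ ↑(hbE d x0 y0 ρ)) (pj d x0 y0 (src e)) (pj d x0 y0 (tgt e)) := by
    intro e he h1 h2
    obtain ⟨-, k1, k3, k4⟩ := (K_iff (by have := h.r1; omega) e).1 he
    have hadj := adj_c d x0 y0 e
    unfold pj
    by_cases c1 : hc d x0 y0 (src e) = -1
    · by_cases c2 : hc d x0 y0 (tgt e) = -1
      · exfalso
        have r1 := hb.row (src e) ⟨by linarith [h1.1.1], by linarith [h1.1.2]⟩ (Or.inl c1)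
        have r2 := hb.row (tgt e) ⟨by linarith [h2.1.1], by linarith [h2.1.2]⟩ (Or.inl c2)
        exact (k4 r1.2 r2.2).1 r1.1
      · rw [if_pos c1, if_neg c2]
        have e1 : inn d (src e) = tgt e := by
          obtain ⟨i1, i2⟩ := inn_c d x0 y0 (src e)
          apply ext_c d x0 y0
          · rw [i1]; obtain ⟨-, h3, -⟩ := h2; omega
          · rw [i2]; obtain ⟨-, h3, -⟩ := h2; omega
        rw [e1]
        exact Reach.refl _ _
    · by_cases c2 : hc d x0 y0 (tgt e) = -1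
      · rw [if_neg c1, if_pos c2]
        have e1 : inn d (tgt e) = src e := by
          obtain ⟨i1, i2⟩ := inn_c d x0 y0 (tgt e)
          apply ext_c d x0 y0
          · rw [i1]; obtain ⟨-, h3, -⟩ := h1; omega
          · rw [i2]; obtain ⟨-, h3, -⟩ := h1; omega
        rw [e1]
        exact Reach.refl _ _
      · rw [if_neg c1, if_neg c2]
        have b1 : bal d x0 y0 ρ (src e) := ⟨h1.1, by obtain ⟨-, h3, h4⟩ := h1; omega, h1.2.2⟩
        have b2 : bal d x0 y0 ρ (tgt e) := ⟨h2.1, by obtain ⟨-, h3, h4⟩ := h2; omega, h2.2.2⟩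
        refine Relation.ReflTransGen.single ⟨e, ⟨KC h he (Or.inl (hb.ball _ b1)), ?_⟩, Or.inl ⟨rfl, rfl⟩⟩
        rw [Finset.mem_coe, hb_iff]
        exact ⟨b1, b2⟩
  induction hR with
  | refl => exact Reach.refl _ _
  | tail _ hs ih =>
    refine ih.trans ?_
    obtain ⟨e, ⟨he1, he2, he3⟩, ⟨h1, h2⟩ | ⟨h1, h2⟩⟩ := hs
    · rw [← h1, ← h2]
      exact key e he1 he2 he3
    · rw [← h1, ← h2]
      exact (key e he1 he2 he3).symm

theorem bp_near (h : Ctx N L r ρ l Ci Co R F) {u : Vtx} {d : Dir} {x0 y0 : ℤ}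
    (ht : -(ρ : ℤ) ≤ tc d x0 y0 u ∧ tc d x0 y0 u ≤ ρ) (hh : hc d x0 y0 u = -1) {v : Vtx}
    (hv : bp d x0 y0 ρ v) : 4 * |v.1 - u.1| ≤ 3 * r ∧ 4 * |v.2 - u.2| ≤ 3 * r := by
  have hρ' : (32 : ℤ) * ρ ≤ r := by exact_mod_cast h.hρr
  have hrr : (1024 : ℤ) ≤ r := by exact_mod_cast h.r1
  have hdc := dist_c d x0 y0 v u (2 * ρ + 1)
    (by
      rw [abs_le]
      obtain ⟨⟨a1, a2⟩, -⟩ := hv
      obtain ⟨a3, a4⟩ := ht
      constructor <;> omega)
    (by
      rw [abs_le, hh]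
      obtain ⟨-, a1, a2⟩ := hv
      constructor <;> omega)
  constructor
  · linarith [hdc.1]
  · linarith [hdc.2]

/-- the cluster of a tube face reaches the rim -/
theorem to_rim (h : Ctx N L r ρ l Ci Co R F) {u : Vtx} {p : ℤ × ℤ}
    (hp : Pnt N L r Ci Co R F u p) {d : Dir} {x0 y0 : ℤ} (hb : HBc N L r Ci Co d x0 y0 ρ)
    (ht : -(ρ : ℤ) ≤ tc d x0 y0 u ∧ tc d x0 y0 u ≤ ρ)
    (hh : hc d x0 y0 u = -1) :
    (∃ b ∈ rimE d x0 y0 ρ, Reach (Cp 1 (↑F : Set Edg) ∩ ↑(hbE d x0 y0 ρ)) (inn d u) b) ∧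
      (∃ e ∈ KK N L r Ci Co R F, (src e = u ∧ tgt e = inn d u) ∨
        (src e = inn d u ∧ tgt e = u)) := by
  have hρ := h.hρr
  have hr1 : 1 ≤ r := by have := h.r1; omega
  have hrow := hb.row u ⟨by linarith [ht.1], by linarith [ht.2]⟩ (Or.inl hh)
  constructor
  · have hPu : bp d x0 y0 ρ u := ⟨ht, by rw [hh], by rw [hh]; omega⟩
    have hnear : ∀ v, bp d x0 y0 ρ v → 4 * |v.1 - u.1| ≤ 3 * r ∧ 4 * |v.2 - u.2| ≤ 3 * r :=
      fun v hv => bp_near h ht hh hv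
    have hPp : ∀ q, p = fp q → ¬ bp d x0 y0 ρ q := by
      intro q hpq hv
      have h4 := hnear _ hv
      have h5 := (near_ok h hp.dg hp.band _ h4.1 h4.2).2
      apply XA_far hr1 hp.mark hpq h5
      by_cases c1 : hc d x0 y0 q = -1
      · exact (hb.row _ ⟨by linarith [hv.1.1], by linarith [hv.1.2]⟩ (Or.inl c1)).1
      · exact Pv_of_Bv (hb.ball _ ⟨hv.1, by obtain ⟨-, h3, h4⟩ := hv; omega, hv.2.2⟩)
    obtain ⟨v, w, hR, hv, hw, e, he, hew⟩ := exit' h hp (bp d x0 y0 ρ) hPu hPp hnear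
    have hv1 : hc d x0 y0 v ≠ -1 := by
      intro c1
      have rv := hb.row v ⟨by linarith [hv.1.1], by linarith [hv.1.2]⟩ (Or.inl c1)
      have hadj := adj_c d x0 y0 e
      have hw2 : hc d x0 y0 w = -1 ∨ hc d x0 y0 w = -2 := by
        by_contra hcon
        apply hw
        unfold bp at hv ⊢
        rcases hew with ⟨h1, h2⟩ | ⟨h1, h2⟩ <;> rw [h1, h2] at hadj <;> omega
      have rw' := hb.row w (by
        unfold bp at hv
        rcases hew with ⟨h1, h2⟩ | ⟨h1, h2⟩ <;> rw [h1, h2] at hadj <;> omega) hw2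
      obtain ⟨-, k1, k3, k4⟩ := (K_iff hr1 e).1 he
      rcases hew with ⟨h1, h2⟩ | ⟨h1, h2⟩
      · rw [h1, h2] at k4
        exact (k4 rv.2 rw'.2).1 rv.1
      · rw [h1, h2] at k4
        exact (k4 rw'.2 rv.2).1 rw'.1
    refine ⟨v, ?_, ?_⟩
    · rw [rim_iff]
      have hadj := adj_c d x0 y0 e
      unfold bp at hv hw
      unfold bal
      rcases hew with ⟨h1, h2⟩ | ⟨h1, h2⟩ <;> rw [h1, h2] at hadj <;> omega
    · have := pj_reach h hb hR
      rw [pj, if_pos hh, pj, if_neg hv1] at this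
      exact this
  · obtain ⟨w, hwB, e, he, hew⟩ := nb h hp hrow.1
    have hadj := adj_c d x0 y0 e
    have hwe : w = inn d u := by
      obtain ⟨i1, i2⟩ := inn_c d x0 y0 u
      have hcon : ¬ (hc d x0 y0 w = -1 ∨ hc d x0 y0 w = -2) := by
        intro hcon
        have rw' := hb.row w (by
          rcases hew with ⟨h1, h2⟩ | ⟨h1, h2⟩ <;> rw [h1, h2] at hadj <;> omega) hcon
        exact rw'.2 hwB
      apply ext_c d x0 y0
      · rw [i1]
        rcases hew with ⟨h1, h2⟩ | ⟨h1, h2⟩ <;> rw [h1, h2] at hadj <;> omega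
      · rw [i2]
        rcases hew with ⟨h1, h2⟩ | ⟨h1, h2⟩ <;> rw [h1, h2] at hadj <;> omega
    rw [← hwe]
    exact ⟨e, he, hew⟩

/-- two tube faces in the middle of a cell -/
theorem middle (h : Ctx N L r ρ l Ci Co R F) {u u' : Vtx} {p p' : ℤ × ℤ}
    (hp : Pnt N L r Ci Co R F u p) (hp' : Pnt N L r Ci Co R F u' p')
    {d : Dir} {x0 y0 : ℤ} (hb : HBc N L r Ci Co d x0 y0 ρ)
    (ht : -(8 * l : ℤ) ≤ tc d x0 y0 u ∧ tc d x0 y0 u ≤ 8 * l)
    (hh : hc d x0 y0 u = -1)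
    (ht' : -(8 * l : ℤ) ≤ tc d x0 y0 u' ∧ tc d x0 y0 u' ≤ 8 * l)
    (hh' : hc d x0 y0 u' = -1)
    (hcen : ∃ i j : ℤ, ((d = Dir.up ∨ d = Dir.dn) ∧ x0 = l * i ∧ (y0 = r * j ∨ y0 = r * j - 1)) ∨
      ((d = Dir.rt ∨ d = Dir.lf) ∧ y0 = l * i ∧ (x0 = r * j ∨ x0 = r * j - 1))) :
    RA N L r Ci Co R F p p' := by
  have hρ := h.hρr
  have hlρ := h.hlρ
  have hl := h.hl
  have hr1 : 1 ≤ r := by have := h.r1; omega
  obtain ⟨⟨b, hb1, hb2⟩, e, he, hew⟩ := to_rim h hp hb (by omega) hh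
  obtain ⟨⟨b', hb1', hb2'⟩, e', he', hew'⟩ := to_rim h hp' hb (by omega) hh'
  obtain ⟨i1, i2⟩ := inn_c d x0 y0 u
  obtain ⟨i1', i2'⟩ := inn_c d x0 y0 u'
  have hcon : Reach (Cp 1 (↑F : Set Edg) ∩ ↑(hbE d x0 y0 ρ)) (inn d u) (inn d u') := by
    by_contra hcon
    apply h.hbad
    right
    obtain ⟨i, j, hij⟩ := hcen
    -- the outer neighbour of the centre
    obtain ⟨z, hz1, hz2, hz3⟩ : ∃ z : Vtx, (|z.1 - x0| ≤ 1 ∧ |z.2 - y0| ≤ 1) ∧
        tc d x0 y0 z = 0 ∧ hc d x0 y0 z = -1 := by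
      cases d
      · exact ⟨(x0, y0 - 1), by simp, by simp [tc], by simp [hc]⟩
      · exact ⟨(x0, y0 + 1), by simp, by simp [tc], by simp [hc]⟩
      · exact ⟨(x0 - 1, y0), by simp, by simp [tc], by simp [hc]⟩
      · exact ⟨(x0 + 1, y0), by simp, by simp [tc], by simp [hc]⟩
    have hrow := hb.row z ⟨by rw [hz2]; omega, by rw [hz2]; omega⟩ (Or.inl hz3)
    rw [abs_le, abs_le] at hz1
    obtain ⟨t1, t2⟩ := tube_pos h hrow.1 hrow.2
    refine ⟨d, x0, y0, i, j, ?_, ?_, hij, ?_⟩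
    · rw [abs_le, abs_le]
      refine ⟨⟨?_, ?_⟩, ?_, ?_⟩ <;>
        linarith [hz1.1.1, hz1.1.2, hz1.2.1, hz1.2.2, t1.1.1, t1.1.2, t1.2.1, t1.2.2]
    · by_contra hc2
      push Not at hc2
      obtain ⟨h3, h4⟩ := hc2
      rw [abs_lt] at h3 h4
      apply t2
      refine ⟨?_, ?_, ?_, ?_⟩ <;>
        linarith [hz1.1.1, hz1.1.2, hz1.2.1, hz1.2.2, h3.1, h3.2, h4.1, h4.2]
    · refine ⟨inn d u, ?_, inn d u', ?_, ⟨b, hb1, hb2⟩, ⟨b', hb1', hb2'⟩, hcon⟩
      · rw [seg_iff, i1, i2, hh]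
        refine ⟨⟨?_, ?_⟩, by norm_num⟩ <;> push_cast <;> omega
      · rw [seg_iff, i1', i2', hh']
        refine ⟨⟨?_, ?_⟩, by norm_num⟩ <;> push_cast <;> omega
  -- lift
  have hPu : bp d x0 y0 ρ u := ⟨by omega, by rw [hh], by rw [hh]; omega⟩
  have hPu' : bp d x0 y0 ρ u' := ⟨by omega, by rw [hh'], by rw [hh']; omega⟩
  have hPi : bp d x0 y0 ρ (inn d u) := ⟨by rw [i1]; omega, by rw [i2, hh]; omega, by rw [i2, hh]; omega⟩
  have hPi' : bp d x0 y0 ρ (inn d u') := ⟨by rw [i1']; omega, by rw [i2', hh']; omega, by rw [i2', hh']; omega⟩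
  have hpos : ∀ v, bp d x0 y0 ρ v → InB R v ∧ Far v := by
    intro v hv
    have h1 := bp_near h ⟨by omega, by omega⟩ hh hv
    exact near_ok h hp.dg hp.band v h1.1 h1.2
  have hR : Reach (KK N L r Ci Co R F ∩ {e | bp d x0 y0 ρ (src e) ∧ bp d x0 y0 ρ (tgt e)})
      u u' := by
    have r1 : Reach (KK N L r Ci Co R F ∩ {e | bp d x0 y0 ρ (src e) ∧ bp d x0 y0 ρ (tgt e)})
        u (inn d u) := by
      refine Relation.ReflTransGen.single ⟨e, ⟨he, ?_⟩, hew⟩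
      rcases hew with ⟨h1, h2⟩ | ⟨h1, h2⟩
      · exact ⟨h1 ▸ hPu, h2 ▸ hPi⟩
      · exact ⟨h1 ▸ hPi, h2 ▸ hPu⟩
    have r2 : Reach (KK N L r Ci Co R F ∩ {e | bp d x0 y0 ρ (src e) ∧ bp d x0 y0 ρ (tgt e)})
        u' (inn d u') := by
      refine Relation.ReflTransGen.single ⟨e', ⟨he', ?_⟩, hew'⟩
      rcases hew' with ⟨h1, h2⟩ | ⟨h1, h2⟩
      · exact ⟨h1 ▸ hPu', h2 ▸ hPi'⟩
      · exact ⟨h1 ▸ hPi', h2 ▸ hPu'⟩
    have r3 : Reach (KK N L r Ci Co R F ∩ {e | bp d x0 y0 ρ (src e) ∧ bp d x0 y0 ρ (tgt e)})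
        (inn d u) (inn d u') := by
      refine Reach.mono ?_ hcon
      rintro e ⟨he1, he2⟩
      rw [Finset.mem_coe, hb_iff] at he2
      have hs : bp d x0 y0 ρ (src e) := ⟨he2.1.1, by linarith [he2.1.2.1], he2.1.2.2⟩
      have ht2 : bp d x0 y0 ρ (tgt e) := ⟨he2.2.1, by linarith [he2.2.2.1], he2.2.2.2⟩
      exact ⟨CK h he1 (Es_far e (hpos _ hs).2 (Or.inl rfl)) (pe_bxz e _ R (Or.inl rfl) (hpos _ hs).1)
        (Or.inl (hb.ball _ he2.1)), hs, ht2⟩
    exact (r1.trans r3).trans r2.symm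
  have := lift' hR
  exact (hp.con.trans _ _ _ this).trans _ _ _ (Relation.EqvGen.symm _ _ hp'.con)


/-- the line between a tube face and its neighbour in a box -/
theorem lineH (hr : 1 ≤ r) {U : Vtx} (hB : ¬ Bv N L r U) {d : Dir} (hd : d = Dir.dn ∨ d = Dir.up)
    (hI : Bv N L r (inn d U)) : ∃ j : ℤ, |U.2 - r * j| ≤ 1 ∧
      ((d = Dir.dn ∧ U.2 = r * j ∧ fl r U = (U.1 / (r : ℤ), j) ∧ fl r (inn d U) = (U.1 / (r : ℤ), j - 1)) ∨
      (d = Dir.up ∧ U.2 + 1 = r * j ∧ fl r U = (U.1 / (r : ℤ), j - 1) ∧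
        fl r (inn d U) = (U.1 / (r : ℤ), j))) := by
  rcases hd with rfl | rfl
  · have hne : (U.2 - 1) / (r : ℤ) ≠ U.2 / r := by
      intro he
      apply hB
      have : fl r U = fl r (inn Dir.dn U) := by
        unfold H12S.fl inn
        simp only [he]
      unfold Bv
      rw [this]
      exact hI
    obtain ⟨j, h1, h2, h3⟩ := cr1 hr hne
    refine ⟨j, by rw [abs_le]; omega, Or.inl ⟨rfl, h1, ?_, ?_⟩⟩
    · unfold H12S.fl
      simp only [h2]
    · unfold H12S.fl inn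
      simp only [h3]
  · have hne : (U.2 + 1) / (r : ℤ) ≠ U.2 / r := by
      intro he
      apply hB
      have : fl r U = fl r (inn Dir.up U) := by
        unfold H12S.fl inn
        simp only [he]
      unfold Bv
      rw [this]
      exact hI
    obtain ⟨j, h1, h2, h3⟩ := cr2 hr hne
    refine ⟨j, by rw [abs_le]; omega, Or.inr ⟨rfl, h1, ?_, ?_⟩⟩
    · unfold H12S.fl
      simp only [h2]
    · unfold H12S.fl inn
      simp only [h3]

theorem lineV (hr : 1 ≤ r) {U : Vtx} (hB : ¬ Bv N L r U) {d : Dir} (hd : d = Dir.lf ∨ d = Dir.rt)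
    (hI : Bv N L r (inn d U)) : ∃ i : ℤ, |U.1 - r * i| ≤ 1 ∧
      ((d = Dir.lf ∧ U.1 = r * i ∧ fl r U = (i, U.2 / (r : ℤ)) ∧ fl r (inn d U) = (i - 1, U.2 / (r : ℤ))) ∨
      (d = Dir.rt ∧ U.1 + 1 = r * i ∧ fl r U = (i - 1, U.2 / (r : ℤ)) ∧
        fl r (inn d U) = (i, U.2 / (r : ℤ)))) := by
  rcases hd with rfl | rfl
  · have hne : (U.1 - 1) / (r : ℤ) ≠ U.1 / r := by
      intro he
      apply hB
      have : fl r U = fl r (inn Dir.lf U) := by
        unfold H12S.fl inn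
        simp only [he]
      unfold Bv
      rw [this]
      exact hI
    obtain ⟨j, h1, h2, h3⟩ := cr1 hr hne
    refine ⟨j, by rw [abs_le]; omega, Or.inl ⟨rfl, h1, ?_, ?_⟩⟩
    · unfold H12S.fl
      simp only [h2]
    · unfold H12S.fl inn
      simp only [h3]
  · have hne : (U.1 + 1) / (r : ℤ) ≠ U.1 / r := by
      intro he
      apply hB
      have : fl r U = fl r (inn Dir.rt U) := by
        unfold H12S.fl inn
        simp only [he]
      unfold Bv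
      rw [this]
      exact hI
    obtain ⟨j, h1, h2, h3⟩ := cr2 hr hne
    refine ⟨j, by rw [abs_le]; omega, Or.inr ⟨rfl, h1, ?_, ?_⟩⟩
    · unfold H12S.fl
      simp only [h2]
    · unfold H12S.fl inn
      simp only [h3]

theorem Ctx.nums (h : Ctx N L r ρ l Ci Co R F) : (32 : ℤ) * l ≤ ρ ∧ (32 : ℤ) * ρ ≤ r ∧ (1 : ℤ) ≤ l :=
  ⟨by exact_mod_cast h.hlρ, by exact_mod_cast h.hρr, by exact_mod_cast h.hl⟩

/-- the direction -/
theorem dirn (h : Ctx N L r ρ l Ci Co R F) {u : Vtx} {p : ℤ × ℤ}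
    (hp : Pnt N L r Ci Co R F u p) (hU : Pv N L r Ci Co u) :
    ∃ d : Dir, Bv N L r (inn d u) := by
  obtain ⟨w, hw, e, -, hew⟩ := nb h hp hU
  obtain ⟨x, y, b⟩ := e
  rcases hew with ⟨h1, h2⟩ | ⟨h1, h2⟩
  · cases b
    · refine ⟨Dir.up, ?_⟩
      rw [src_mk] at h1; rw [tgt_false] at h2
      rw [← h1]; rw [← h2] at hw; exact hw
    · refine ⟨Dir.rt, ?_⟩
      rw [src_mk] at h1; rw [tgt_true] at h2
      rw [← h1]; rw [← h2] at hw; exact hw
  · cases b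
    · refine ⟨Dir.dn, ?_⟩
      rw [src_mk] at h1; rw [tgt_false] at h2
      rw [← h2]; rw [← h1] at hw
      simpa [inn] using hw
    · refine ⟨Dir.lf, ?_⟩
      rw [src_mk] at h1; rw [tgt_true] at h2
      rw [← h2]; rw [← h1] at hw
      simpa [inn] using hw

theorem caseB (h : Ctx N L r ρ l Ci Co R F) {u u' : Vtx} {p p' : ℤ × ℤ}
    (hp : Pnt N L r Ci Co R F u p) (hp' : Pnt N L r Ci Co R F u' p')
    (hU : Pv N L r Ci Co u) (hU' : ¬ Pv N L r Ci Co u')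
    (d1 : |u.1 - u'.1| ≤ 4 * l) (d2 : |u.2 - u'.2| ≤ 4 * l) :
    RA N L r Ci Co R F p p' := by
  have hr1 : 1 ≤ r := by have := h.r1; omega
  obtain ⟨c1, c2, c3⟩ := h.nums
  obtain ⟨d, hd⟩ := dirn h hp hU
  have e1 := abs_le.1 d1
  have e2 := abs_le.1 d2
  by_cases hdH : d = Dir.dn ∨ d = Dir.up
  · obtain ⟨j, hj, hfl⟩ := lineH hr1 hp.nB hdH hd
    have ej := abs_le.1 hj
    have hl' := near_line (r := r) hr1 (y := u'.2) (j := j) (by linarith [e2.1, e2.2, ej.1, ej.2])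
      (by linarith [e2.1, e2.2, ej.1, ej.2])
    have hne : u.1 / (r : ℤ) ≠ u'.1 / r := by
      intro he
      apply hU'
      have : fl r u' = (u.1 / (r : ℤ), u'.2 / (r : ℤ)) := by
        unfold H12S.fl
        rw [he]
      unfold Pv
      rw [this]
      rcases hfl with ⟨-, -, f1, f2⟩ | ⟨-, -, f1, f2⟩ <;> rcases hl' with hl' | hl' <;> rw [hl']
      · rw [← f1]; exact hU
      · rw [← f2]; exact Pv_of_Bv hd
      · rw [← f2]; exact Pv_of_Bv hd
      · rw [← f1]; exact hU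
    obtain ⟨i, i1, i2⟩ := col hr1 hne d1
    have ei1 := abs_le.1 i1
    have ei2 := abs_le.1 i2
    refine mixed h hp hp' hU hU' (i, j) ⟨?_, ?_⟩ ⟨?_, ?_⟩ <;> simp only <;> rw [abs_le] <;>
      constructor <;> linarith [e2.1, e2.2, ej.1, ej.2, ei1.1, ei1.2, ei2.1, ei2.2]
  · have hdV : d = Dir.lf ∨ d = Dir.rt := by cases d <;> simp_all
    obtain ⟨i, hi, hfl⟩ := lineV hr1 hp.nB hdV hd
    have ei := abs_le.1 hi
    have hl' := near_line (r := r) hr1 (y := u'.1) (j := i) (by linarith [e1.1, e1.2, ei.1, ei.2])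
      (by linarith [e1.1, e1.2, ei.1, ei.2])
    have hne : u.2 / (r : ℤ) ≠ u'.2 / r := by
      intro he
      apply hU'
      have : fl r u' = (u'.1 / (r : ℤ), u.2 / (r : ℤ)) := by
        unfold H12S.fl
        rw [he]
      unfold Pv
      rw [this]
      rcases hfl with ⟨-, -, f1, f2⟩ | ⟨-, -, f1, f2⟩ <;> rcases hl' with hl' | hl' <;> rw [hl']
      · rw [← f1]; exact hU
      · rw [← f2]; exact Pv_of_Bv hd
      · rw [← f2]; exact Pv_of_Bv hd
      · rw [← f1]; exact hU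
    obtain ⟨j, i1, i2⟩ := col hr1 hne d2
    have ei1 := abs_le.1 i1
    have ei2 := abs_le.1 i2
    refine mixed h hp hp' hU hU' (i, j) ⟨?_, ?_⟩ ⟨?_, ?_⟩ <;> simp only <;> rw [abs_le] <;>
      constructor <;> linarith [e1.1, e1.2, ei.1, ei.2, ei1.1, ei1.2, ei2.1, ei2.2]


theorem sameDn (h : Ctx N L r ρ l Ci Co R F) {u u' : Vtx} {p p' : ℤ × ℤ}
    (hp : Pnt N L r Ci Co R F u p) (hp' : Pnt N L r Ci Co R F u' p')
    (hU : Pv N L r Ci Co u) (hU' : Pv N L r Ci Co u')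
    (d1 : |u.1 - u'.1| ≤ 4 * l) {a j : ℤ}
    (hj : u.2 = r * j) (hj' : u'.2 = r * j)
    (f1 : fl r u = (a, j)) (f1' : fl r u' = (a, j))
    (f2 : fl r (inn Dir.dn u) = (a, j - 1)) (hB : Bv N L r (inn Dir.dn u)) :
    RA N L r Ci Co R F p p' := by
  have hr1 : 1 ≤ r := by have := h.r1; omega
  obtain ⟨c1, c2, c3⟩ := h.nums
  have e1 := abs_le.1 d1
  obtain ⟨⟨g1, g2⟩, -⟩ := (fl_iff r hr1 _ _).1 f1
  simp only at g1 g2
  by_cases h1 : u.1 - r * a ≤ 2 * ρ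
  · refine two h hp hp' hU hU' (a, j) ⟨?_, ?_⟩ ⟨?_, ?_⟩ <;> simp only <;> rw [abs_le] <;>
      constructor <;> linarith [e1.1, e1.2]
  by_cases h2 : r * a + r - u.1 ≤ 2 * ρ
  · have e : (r : ℤ) * (a + 1) = r * a + r := by ring
    refine two h hp hp' hU hU' (a + 1, j) ⟨?_, ?_⟩ ⟨?_, ?_⟩ <;> simp only <;> rw [abs_le] <;>
      constructor <;> linarith [e1.1, e1.2]
  push Not at h1 h2
  have hl1 : 1 ≤ l := h.hl
  obtain ⟨g3, g4⟩ := (div_iff l hl1 u.1 _).1 rfl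
  have er : (r : ℤ) * (j - 1) = r * j - r := by ring
  refine middle h hp hp' (d := Dir.dn) (x0 := l * (u.1 / (l : ℤ))) (y0 := r * j - 1)
    ⟨?_, ?_⟩ ?_ ?_ ?_ ?_ ⟨_, j, Or.inl ⟨Or.inr rfl, rfl, Or.inr rfl⟩⟩
  · intro v hv
    unfold bal at hv
    simp only [tc, hc] at hv
    obtain ⟨⟨v1, v2⟩, v3, v4⟩ := hv
    have : fl r v = (a, j - 1) := by
      rw [fl_iff r hr1]
      simp only
      rw [er]
      refine ⟨⟨by linarith, by linarith⟩, by linarith, by linarith⟩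
    unfold Bv
    rw [this, ← f2]
    exact hB
  · intro v hv hv'
    simp only [tc, hc] at hv hv'
    have : fl r v = fl r u := by
      rw [f1, fl_iff r hr1]
      simp only
      rcases hv' with hv' | hv' <;>
        exact ⟨⟨by linarith [hv.1, hv.2], by linarith [hv.1, hv.2]⟩, by linarith, by linarith⟩
    unfold Pv Bv
    rw [this]
    exact ⟨hU, hp.nB⟩
  · simp only [tc]
    constructor <;> linarith
  · simp only [hc]
    linarith
  · simp only [tc]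
    constructor <;> linarith [e1.1, e1.2]
  · simp only [hc]
    linarith

theorem sameUp (h : Ctx N L r ρ l Ci Co R F) {u u' : Vtx} {p p' : ℤ × ℤ}
    (hp : Pnt N L r Ci Co R F u p) (hp' : Pnt N L r Ci Co R F u' p')
    (hU : Pv N L r Ci Co u) (hU' : Pv N L r Ci Co u')
    (d1 : |u.1 - u'.1| ≤ 4 * l) {a j : ℤ}
    (hj : u.2 + 1 = r * j) (hj' : u'.2 + 1 = r * j)
    (f1 : fl r u = (a, j - 1)) (f1' : fl r u' = (a, j - 1))
    (f2 : fl r (inn Dir.up u) = (a, j)) (hB : Bv N L r (inn Dir.up u)) :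
    RA N L r Ci Co R F p p' := by
  have hr1 : 1 ≤ r := by have := h.r1; omega
  obtain ⟨c1, c2, c3⟩ := h.nums
  have e1 := abs_le.1 d1
  obtain ⟨⟨g1, g2⟩, -⟩ := (fl_iff r hr1 _ _).1 f1
  simp only at g1 g2
  by_cases h1 : u.1 - r * a ≤ 2 * ρ
  · refine two h hp hp' hU hU' (a, j) ⟨?_, ?_⟩ ⟨?_, ?_⟩ <;> simp only <;> rw [abs_le] <;>
      constructor <;> linarith [e1.1, e1.2]
  by_cases h2 : r * a + r - u.1 ≤ 2 * ρ
  · have e : (r : ℤ) * (a + 1) = r * a + r := by ring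
    refine two h hp hp' hU hU' (a + 1, j) ⟨?_, ?_⟩ ⟨?_, ?_⟩ <;> simp only <;> rw [abs_le] <;>
      constructor <;> linarith [e1.1, e1.2]
  push Not at h1 h2
  have hl1 : 1 ≤ l := h.hl
  obtain ⟨g3, g4⟩ := (div_iff l hl1 u.1 _).1 rfl
  have er : (r : ℤ) * (j - 1) = r * j - r := by ring
  refine middle h hp hp' (d := Dir.up) (x0 := l * (u.1 / (l : ℤ))) (y0 := r * j)
    ⟨?_, ?_⟩ ?_ ?_ ?_ ?_ ⟨_, j, Or.inl ⟨Or.inl rfl, rfl, Or.inl rfl⟩⟩
  · intro v hv
    unfold bal at hv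
    simp only [tc, hc] at hv
    obtain ⟨⟨v1, v2⟩, v3, v4⟩ := hv
    have : fl r v = (a, j) := by
      rw [fl_iff r hr1]
      simp only
      refine ⟨⟨by linarith, by linarith⟩, by linarith, by linarith⟩
    unfold Bv
    rw [this, ← f2]
    exact hB
  · intro v hv hv'
    simp only [tc, hc] at hv hv'
    have : fl r v = fl r u := by
      rw [f1, fl_iff r hr1]
      simp only
      rw [er]
      rcases hv' with hv' | hv' <;>
        exact ⟨⟨by linarith [hv.1, hv.2], by linarith [hv.1, hv.2]⟩, by linarith, by linarith⟩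
    unfold Pv Bv
    rw [this]
    exact ⟨hU, hp.nB⟩
  · simp only [tc]
    constructor <;> linarith
  · simp only [hc]
    linarith
  · simp only [tc]
    constructor <;> linarith [e1.1, e1.2]
  · simp only [hc]
    linarith

theorem sameLf (h : Ctx N L r ρ l Ci Co R F) {u u' : Vtx} {p p' : ℤ × ℤ}
    (hp : Pnt N L r Ci Co R F u p) (hp' : Pnt N L r Ci Co R F u' p')
    (hU : Pv N L r Ci Co u) (hU' : Pv N L r Ci Co u')
    (d1 : |u.2 - u'.2| ≤ 4 * l) {a j : ℤ}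
    (hj : u.1 = r * j) (hj' : u'.1 = r * j)
    (f1 : fl r u = (j, a)) (f1' : fl r u' = (j, a))
    (f2 : fl r (inn Dir.lf u) = (j - 1, a)) (hB : Bv N L r (inn Dir.lf u)) :
    RA N L r Ci Co R F p p' := by
  have hr1 : 1 ≤ r := by have := h.r1; omega
  obtain ⟨c1, c2, c3⟩ := h.nums
  have e1 := abs_le.1 d1
  obtain ⟨-, g1, g2⟩ := (fl_iff r hr1 _ _).1 f1
  simp only at g1 g2
  by_cases h1 : u.2 - r * a ≤ 2 * ρ
  · refine two h hp hp' hU hU' (j, a) ⟨?_, ?_⟩ ⟨?_, ?_⟩ <;> simp only <;> rw [abs_le] <;>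
      constructor <;> linarith [e1.1, e1.2]
  by_cases h2 : r * a + r - u.2 ≤ 2 * ρ
  · have e : (r : ℤ) * (a + 1) = r * a + r := by ring
    refine two h hp hp' hU hU' (j, a + 1) ⟨?_, ?_⟩ ⟨?_, ?_⟩ <;> simp only <;> rw [abs_le] <;>
      constructor <;> linarith [e1.1, e1.2]
  push Not at h1 h2
  have hl1 : 1 ≤ l := h.hl
  obtain ⟨g3, g4⟩ := (div_iff l hl1 u.2 _).1 rfl
  have er : (r : ℤ) * (j - 1) = r * j - r := by ring
  refine middle h hp hp' (d := Dir.lf) (x0 := r * j - 1) (y0 := l * (u.2 / (l : ℤ)))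
    ⟨?_, ?_⟩ ?_ ?_ ?_ ?_ ⟨_, j, Or.inr ⟨Or.inr rfl, rfl, Or.inr rfl⟩⟩
  · intro v hv
    unfold bal at hv
    simp only [tc, hc] at hv
    obtain ⟨⟨v1, v2⟩, v3, v4⟩ := hv
    have : fl r v = (j - 1, a) := by
      rw [fl_iff r hr1]
      simp only
      rw [er]
      refine ⟨⟨by linarith, by linarith⟩, by linarith, by linarith⟩
    unfold Bv
    rw [this, ← f2]
    exact hB
  · intro v hv hv'
    simp only [tc, hc] at hv hv'
    have : fl r v = fl r u := by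
      rw [f1, fl_iff r hr1]
      simp only
      rcases hv' with hv' | hv' <;>
        exact ⟨⟨by linarith, by linarith⟩, by linarith [hv.1, hv.2], by linarith [hv.1, hv.2]⟩
    unfold Pv Bv
    rw [this]
    exact ⟨hU, hp.nB⟩
  · simp only [tc]
    constructor <;> linarith
  · simp only [hc]
    linarith
  · simp only [tc]
    constructor <;> linarith [e1.1, e1.2]
  · simp only [hc]
    linarith

theorem sameRt (h : Ctx N L r ρ l Ci Co R F) {u u' : Vtx} {p p' : ℤ × ℤ}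
    (hp : Pnt N L r Ci Co R F u p) (hp' : Pnt N L r Ci Co R F u' p')
    (hU : Pv N L r Ci Co u) (hU' : Pv N L r Ci Co u')
    (d1 : |u.2 - u'.2| ≤ 4 * l) {a j : ℤ}
    (hj : u.1 + 1 = r * j) (hj' : u'.1 + 1 = r * j)
    (f1 : fl r u = (j - 1, a)) (f1' : fl r u' = (j - 1, a))
    (f2 : fl r (inn Dir.rt u) = (j, a)) (hB : Bv N L r (inn Dir.rt u)) :
    RA N L r Ci Co R F p p' := by
  have hr1 : 1 ≤ r := by have := h.r1; omega
  obtain ⟨c1, c2, c3⟩ := h.nums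
  have e1 := abs_le.1 d1
  obtain ⟨-, g1, g2⟩ := (fl_iff r hr1 _ _).1 f1
  simp only at g1 g2
  by_cases h1 : u.2 - r * a ≤ 2 * ρ
  · refine two h hp hp' hU hU' (j, a) ⟨?_, ?_⟩ ⟨?_, ?_⟩ <;> simp only <;> rw [abs_le] <;>
      constructor <;> linarith [e1.1, e1.2]
  by_cases h2 : r * a + r - u.2 ≤ 2 * ρ
  · have e : (r : ℤ) * (a + 1) = r * a + r := by ring
    refine two h hp hp' hU hU' (j, a + 1) ⟨?_, ?_⟩ ⟨?_, ?_⟩ <;> simp only <;> rw [abs_le] <;>
      constructor <;> linarith [e1.1, e1.2]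
  push Not at h1 h2
  have hl1 : 1 ≤ l := h.hl
  obtain ⟨g3, g4⟩ := (div_iff l hl1 u.2 _).1 rfl
  have er : (r : ℤ) * (j - 1) = r * j - r := by ring
  refine middle h hp hp' (d := Dir.rt) (x0 := r * j) (y0 := l * (u.2 / (l : ℤ)))
    ⟨?_, ?_⟩ ?_ ?_ ?_ ?_ ⟨_, j, Or.inr ⟨Or.inl rfl, rfl, Or.inl rfl⟩⟩
  · intro v hv
    unfold bal at hv
    simp only [tc, hc] at hv
    obtain ⟨⟨v1, v2⟩, v3, v4⟩ := hv
    have : fl r v = (j, a) := by
      rw [fl_iff r hr1]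
      simp only
      refine ⟨⟨by linarith, by linarith⟩, by linarith, by linarith⟩
    unfold Bv
    rw [this, ← f2]
    exact hB
  · intro v hv hv'
    simp only [tc, hc] at hv hv'
    have : fl r v = fl r u := by
      rw [f1, fl_iff r hr1]
      simp only
      rw [er]
      rcases hv' with hv' | hv' <;>
        exact ⟨⟨by linarith, by linarith⟩, by linarith [hv.1, hv.2], by linarith [hv.1, hv.2]⟩
    unfold Pv Bv
    rw [this]
    exact ⟨hU, hp.nB⟩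
  · simp only [tc]
    constructor <;> linarith
  · simp only [hc]
    linarith
  · simp only [tc]
    constructor <;> linarith [e1.1, e1.2]
  · simp only [hc]
    linarith

/-- two lines at distance less than `r` coincide -/
theorem line_eq (hr : 1 ≤ r) {j j' : ℤ} (h1 : (r : ℤ) * j - r * j' < r) (h2 : (r : ℤ) * j' - r * j < r) :
    j = j' := by
  have hr0 : (0 : ℤ) < r := by exact_mod_cast hr
  by_contra hne
  rcases lt_or_gt_of_ne hne with h3 | h3
  · have : j + 1 ≤ j' := h3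
    nlinarith
  · have : j' + 1 ≤ j := h3
    nlinarith

theorem caseC (h : Ctx N L r ρ l Ci Co R F) {u u' : Vtx} {p p' : ℤ × ℤ}
    (hp : Pnt N L r Ci Co R F u p) (hp' : Pnt N L r Ci Co R F u' p')
    (hU : Pv N L r Ci Co u) (hU' : Pv N L r Ci Co u')
    (d1 : |u.1 - u'.1| ≤ 4 * l) (d2 : |u.2 - u'.2| ≤ 4 * l) :
    RA N L r Ci Co R F p p' := by
  have hr1 : 1 ≤ r := by have := h.r1; omega
  obtain ⟨c1, c2, c3⟩ := h.nums
  obtain ⟨d, hd⟩ := dirn h hp hU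
  obtain ⟨d', hd'⟩ := dirn h hp' hU'
  have e1 := abs_le.1 d1
  have e2 := abs_le.1 d2
  by_cases hdH : d = Dir.dn ∨ d = Dir.up
  · obtain ⟨j, hj, hfl⟩ := lineH hr1 hp.nB hdH hd
    have ej := abs_le.1 hj
    by_cases hdH' : d' = Dir.dn ∨ d' = Dir.up
    · obtain ⟨j', hj', hfl'⟩ := lineH hr1 hp'.nB hdH' hd'
      have ej' := abs_le.1 hj'
      by_cases hne : u.1 / (r : ℤ) = u'.1 / r
      · have hjj : j = j' := line_eq hr1 (by linarith [e2.1, e2.2, ej.1, ej.2, ej'.1, ej'.2])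
          (by linarith [e2.1, e2.2, ej.1, ej.2, ej'.1, ej'.2])
        subst hjj
        rw [← hne] at hfl'
        rcases hfl with ⟨rfl, f0, f1, f2⟩ | ⟨rfl, f0, f1, f2⟩ <;>
          rcases hfl' with ⟨rfl, f0', f1', f2'⟩ | ⟨rfl, f0', f1', f2'⟩
        · exact sameDn h hp hp' hU hU' d1 f0 f0' f1 f1' f2 hd
        · exfalso
          apply hp'.nB
          unfold Bv
          rw [f1', ← f2]
          exact hd
        · exfalso
          apply hp'.nB
          unfold Bv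
          rw [f1', ← f2]
          exact hd
        · exact sameUp h hp hp' hU hU' d1 f0 f0' f1 f1' f2 hd
      · obtain ⟨i, i1, i2⟩ := col hr1 hne d1
        have ei1 := abs_le.1 i1
        have ei2 := abs_le.1 i2
        refine two h hp hp' hU hU' (i, j) ⟨?_, ?_⟩ ⟨?_, ?_⟩ <;> simp only <;> rw [abs_le] <;>
          constructor <;> linarith [e2.1, e2.2, ej.1, ej.2, ei1.1, ei1.2, ei2.1, ei2.2]
    · have hdV' : d' = Dir.lf ∨ d' = Dir.rt := by cases d' <;> simp_all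
      obtain ⟨i, hi, -⟩ := lineV hr1 hp'.nB hdV' hd'
      have ei := abs_le.1 hi
      refine two h hp hp' hU hU' (i, j) ⟨?_, ?_⟩ ⟨?_, ?_⟩ <;> simp only <;> rw [abs_le] <;>
        constructor <;> linarith [e1.1, e1.2, e2.1, e2.2, ej.1, ej.2, ei.1, ei.2]
  · have hdV : d = Dir.lf ∨ d = Dir.rt := by cases d <;> simp_all
    obtain ⟨j, hj, hfl⟩ := lineV hr1 hp.nB hdV hd
    have ej := abs_le.1 hj
    by_cases hdH' : d' = Dir.dn ∨ d' = Dir.up
    · obtain ⟨i, hi, -⟩ := lineH hr1 hp'.nB hdH' hd'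
      have ei := abs_le.1 hi
      refine two h hp hp' hU hU' (j, i) ⟨?_, ?_⟩ ⟨?_, ?_⟩ <;> simp only <;> rw [abs_le] <;>
        constructor <;> linarith [e1.1, e1.2, e2.1, e2.2, ej.1, ej.2, ei.1, ei.2]
    · have hdV' : d' = Dir.lf ∨ d' = Dir.rt := by cases d' <;> simp_all
      obtain ⟨j', hj', hfl'⟩ := lineV hr1 hp'.nB hdV' hd'
      have ej' := abs_le.1 hj'
      by_cases hne : u.2 / (r : ℤ) = u'.2 / r
      · have hjj : j = j' := line_eq hr1 (by linarith [e1.1, e1.2, ej.1, ej.2, ej'.1, ej'.2])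
          (by linarith [e1.1, e1.2, ej.1, ej.2, ej'.1, ej'.2])
        subst hjj
        rw [← hne] at hfl'
        rcases hfl with ⟨rfl, f0, f1, f2⟩ | ⟨rfl, f0, f1, f2⟩ <;>
          rcases hfl' with ⟨rfl, f0', f1', f2'⟩ | ⟨rfl, f0', f1', f2'⟩
        · exact sameLf h hp hp' hU hU' d2 f0 f0' f1 f1' f2 hd
        · exfalso
          apply hp'.nB
          unfold Bv
          rw [f1', ← f2]
          exact hd
        · exfalso
          apply hp'.nB
          unfold Bv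
          rw [f1', ← f2]
          exact hd
        · exact sameRt h hp hp' hU hU' d2 f0 f0' f1 f1' f2 hd
      · obtain ⟨i, i1, i2⟩ := col hr1 hne d2
        have ei1 := abs_le.1 i1
        have ei2 := abs_le.1 i2
        refine two h hp hp' hU hU' (j, i) ⟨?_, ?_⟩ ⟨?_, ?_⟩ <;> simp only <;> rw [abs_le] <;>
          constructor <;> linarith [e1.1, e1.2, ej.1, ej.2, ei1.1, ei1.2, ei2.1, ei2.2]

theorem caseA (h : Ctx N L r ρ l Ci Co R F) {u u' : Vtx} {p p' : ℤ × ℤ}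
    (hp : Pnt N L r Ci Co R F u p) (hp' : Pnt N L r Ci Co R F u' p')
    (hU : ¬ Pv N L r Ci Co u) (hU' : ¬ Pv N L r Ci Co u')
    (d1 : |u.1 - u'.1| ≤ 4 * l) (d2 : |u.2 - u'.2| ≤ 4 * l) :
    RA N L r Ci Co R F p p' := by
  have hr1 : 1 ≤ r := by have := h.r1; omega
  have hrr : (1024 : ℤ) ≤ r := by exact_mod_cast h.r1
  obtain ⟨c1, c2, c3⟩ := h.nums
  have hr0 : (0 : ℤ) < r := by exact_mod_cast hr1
  have key : ∀ x x' : ℤ, |x - x'| ≤ 4 * l → |x / (r : ℤ) - x' / r| ≤ 1 := by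
    intro x x' hx
    have h1 := (div_iff r hr1 x _).1 rfl
    have h2 := (div_iff r hr1 x' _).1 rfl
    have h3 := abs_le.1 hx
    rw [abs_le]
    constructor
    · by_contra hcon
      have h4 : x / (r : ℤ) + 2 ≤ x' / r := by omega
      nlinarith
    · by_contra hcon
      have h4 : x' / (r : ℤ) + 2 ≤ x / r := by omega
      nlinarith
  have e1 := abs_le.1 d1
  have e2 := abs_le.1 d2
  have hN : Ne r u u' := by
    constructor
    · rw [abs_sub_comm]; linarith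
    · rw [abs_sub_comm]; linarith
  exact RA_chain hp.con (outer h hp hU hU' (key _ _ d1) (key _ _ d2)
    ⟨by simp, by simp⟩ hN)
    (Relation.EqvGen.refl _) (Relation.EqvGen.refl _) hp'.con

end D

end TSEPA

open Pool.Agent.H160R2.MU.TSEPA (fl_iff EP_iff pe pe_eq) in
open TSEPA in
/-- **step A: different clusters of class 1 are far from each other at the boundary of the tube** -/
theorem t_SEPA : S_z1 → S_z2 → S_z3 → S_SEPA := by
  intro _ _ hg3 N L r ρ l Ci Co R hG hl hlρ hρr F _hF hbad x x' y y'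
    hXx hXx' hxy hxy' hy hy' hNr
  obtain ⟨g1, g2, g5⟩ := hg3 N L Ci Co hG.hN hG.hL hG.hi hG.ho _ rfl
  have h : Ctx N L r ρ l Ci Co R F :=
    ⟨hG.hN, hG.hL, hl, hlρ, by omega, hG.hR, hbad, g1, g2, g5⟩
  have hr1 : 1 ≤ r := by have := h.r1; omega
  -- faces near the tube
  have tub : ∀ U2 : Vtx, fl r U2 ∈ TubI N L Ci Co → ∀ u : Vtx, |u.1 - U2.1| ≤ 1 →
      |u.2 - U2.2| ≤ 1 → Fr r u ∧ InL L r u := by
    intro U2 a5 u a3 a4
    obtain ⟨⟨b1, b2, b3, b4⟩, -, b6⟩ := g5 _ a5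
    obtain ⟨⟨z1, z2⟩, z3, z4⟩ := (fl_iff r hr1 U2 _).1 rfl
    have hr0 : (0 : ℤ) < r := by exact_mod_cast hr1
    have hrr : (1024 : ℤ) ≤ r := by exact_mod_cast h.r1
    have hN2 : (16 : ℤ) ≤ N := by exact_mod_cast hG.hN
    have e3 := abs_le.1 a3
    have e4 := abs_le.1 a4
    generalize fl r U2 = q at *
    constructor
    · rcases b6 with b6 | b6 | b6
      · left
        have m0 : 6 * (r : ℤ) ≤ r * q.1 - r * q.2 := by nlinarith
        linarith [e3.1, e3.2, e4.1, e4.2]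
      · right; left
        have m0 : r * q.1 + r * q.2 ≤ -(6 * (r : ℤ)) := by nlinarith
        linarith [e3.1, e3.2, e4.1, e4.2]
      · right; right
        have m0 : 5 * (r : ℤ) ≤ r * q.1 + r * q.2 := by nlinarith
        linarith [e3.1, e3.2, e4.1, e4.2]
    · have m1 : -((L : ℤ) * r) ≤ U2.1 := by nlinarith
      have m2 : U2.1 < (L : ℤ) * r := by nlinarith
      have m3 : -((L : ℤ) * r) ≤ U2.2 := by nlinarith
      have m4 : U2.2 < (L : ℤ) * r := by nlinarith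
      unfold InL
      rw [abs_le, abs_le]
      refine ⟨⟨?_, ?_⟩, ?_, ?_⟩ <;> linarith [e3.1, e3.2, e4.1, e4.2]
  have mk : ∀ y x : ℤ × ℤ, XA N L r Ci Co x →
      RZ {0} (bxz R) (↑(FA N L r Ci Co R F) : Set Edg) x y → DeA N L r Ci Co y →
      ∃ u : Vtx, y = fp u ∧ Pnt N L r Ci Co R F u x := by
    rintro y x hX hR ⟨E, h1, h2, hz, w, hD⟩
    obtain ⟨E', rfl⟩ := pe_surj E
    have hE : pe E' ∈ Es := by
      have h2' := h2
      rw [EP_iff r hr1] at h2'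
      obtain ⟨p1, p2, p3⟩ := pe_eq E'
      rw [p1, p2] at h2'
      have hfar : ∀ U2 : Vtx, fl r U2 ∈ TubI N L Ci Co → Far U2 := by
        intro U2 hU2
        obtain ⟨b1, b2⟩ := tub U2 hU2 U2 (by simp) (by simp)
        exact (near_ok h b1 b2 U2 (by simp) (by simp)).2
      rcases h2' with h3 | h3
      · exact Es_far E' (hfar _ h3) (Or.inl rfl)
      · exact Es_far E' (hfar _ h3) (Or.inr rfl)
    have key : ∃ e : Edg, pe e = pe E' ∧ (y = fp (src e) ∨ y = fp (tgt e)) := by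
      rcases hD with hD | hD
      · obtain ⟨e, e1, e2, e3⟩ := Dg_inv hE hD
        exact ⟨e, e1, Or.inl e2⟩
      · obtain ⟨e, e1, e2, e3⟩ := Dg_inv hE hD
        exact ⟨e, e1, Or.inr e3⟩
    obtain ⟨e, he, hw⟩ := key
    rw [← he] at h1 h2
    obtain ⟨u, hu, hye⟩ : ∃ u : Vtx, (src e = u ∨ tgt e = u) ∧ y = fp u := by
      rcases hw with hw | hw
      · exact ⟨_, Or.inl rfl, hw⟩
      · exact ⟨_, Or.inr rfl, hw⟩
    refine ⟨u, hye, ?_⟩
    obtain ⟨a2, U2, a3, a4, a5⟩ := U_facts hr1 ⟨e, h1, h2, hu⟩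
    obtain ⟨b1, b2⟩ := tub U2 a5 u a3 a4
    exact ⟨a2, b1, b2, hX, hye ▸ hR⟩
  obtain ⟨u, rfl, hp⟩ := mk y x hXx hxy hy
  obtain ⟨u', rfl, hp'⟩ := mk y' x' hXx' hxy' hy'
  obtain ⟨d1', d2'⟩ := hNr
  have d1 : |u.1 - u'.1| ≤ 4 * l := by
    unfold fp at d1'
    simp only at d1'
    rw [abs_le] at d1' ⊢
    constructor <;> linarith [d1'.1, d1'.2]
  have d2 : |u.2 - u'.2| ≤ 4 * l := by
    unfold fp at d2'
    simp only at d2'
    rw [abs_le] at d2' ⊢
    constructor <;> linarith [d2'.1, d2'.2]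
  by_cases hU : Pv N L r Ci Co u
  · by_cases hU' : Pv N L r Ci Co u'
    · exact caseC h hp hp' hU hU' d1 d2
    · exact caseB h hp hp' hU hU' d1 d2
  · by_cases hU' : Pv N L r Ci Co u'
    · refine Relation.EqvGen.symm _ _ (caseB h hp' hp hU' hU ?_ ?_)
      · rw [abs_sub_comm]; exact d1
      · rw [abs_sub_comm]; exact d2
    · exact caseA h hp hp' hU hU' d1 d2

end Pool.Agent.W378.KI
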